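import Pool.Agent.Lib.MP_71d0e6_al.SD.Basic

namespace Pool.Agent.Lib.MP_71d0e6_al.SD

open FirstOrder FirstOrder.Language Finset

universe u v w

variable {A : Type w}

lemma Tst.app {Λ : Type} {s : (Λ → A) → A} {U V : Λ → Bool} (h : Tst s U V) (g : Bool → A) :
    s (fun j => g (U j)) = s (fun j => g (V j)) := by
  have e : ∀ U : Λ → Bool, (fun j => g (U j)) = bv U (g false) (g true) := fun U => by
    funext j
    unfold bv
    cases U j <;> rfl
  rw [e, e]
  exact h _ _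

/-- Majority of three Booleans. -/
def maj (p q r : Bool) : Bool := (p && q) || (q && r) || (p && r)

lemma bi_maj (p q r : Bool) :
    bi (maj p q r) = bi p * bi q + bi q * bi r + bi p * bi r - 2 * (bi p * (bi q * bi r)) := by
  cases p <;> cases q <;> cases r <;> rfl

lemma sum_maj {ι : Type} [Fintype ι] (p q r : ι → Bool) {a : ℤ} (hp : ∑ i, bi (p i) = a)
    (hq : ∑ i, bi (q i) = a) (hr : ∑ i, bi (r i) = a) :
    ∑ i : ι × ι × ι, bi (maj (p i.1) (q i.2.1) (r i.2.2)) =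
      3 * a ^ 2 * Fintype.card ι - 2 * a ^ 3 := by
  simp only [Fintype.sum_prod_type, bi_maj, sum_sub_distrib, sum_add_distrib, ← mul_sum,
    ← sum_mul, sum_const, card_univ, nsmul_eq_mul, hp, hq, hr]
  ring

/-- An operation on at most `n` places with `k` tests of drift one and `2 a` tests with
weights `a` and `a - E` at every place. -/
def Amp (L : FirstOrder.Language.{u, v}) (A : Type w) [L.Structure A] (k n : ℕ) (a E : ℤ) :
    Prop :=
  ∃ (Λ : Type) (_ : Fintype Λ) (_ : Nonempty Λ) (s : (Λ → A) → A) (ι : Type) (_ : Fintype ι)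
    (U V : ι → Λ → Bool), Clo L s ∧ Idem s ∧ Fintype.card Λ ≤ n ∧
      Dr (Drift (Tst s)) k (fun _ => 1) ∧ (Fintype.card ι : ℤ) = 2 * a ∧
      (∀ r, Tst s (U r) (V r)) ∧ (∀ j, ∑ r, bi (U r j) = a) ∧ ∀ j, ∑ r, bi (V r j) = a - E

variable {L : FirstOrder.Language.{u, v}} [L.Structure A]

lemma Amp.base {k : ℕ} (hk : 0 < k) (h : W L A k) : Amp L A k (4 ^ k) k 1 := by
  obtain ⟨s, h1, h2, h3⟩ := h.sys
  obtain ⟨U, V, hT, hd⟩ := h3.tests
  have hn : ∀ b, bi (!b) = 1 - bi b := fun b => by cases b <;> rfl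
  refine ⟨Pos k, inferInstance, ⟨⟨({⟨0, hk⟩}, ∅), by simp⟩⟩, s, Fin k ⊕ Fin k, inferInstance,
    Sum.elim (fun r => U r) fun r j => !U r j, Sum.elim (fun r => V r) fun r j => !U r j,
    h1, h2, card_pos_le k, h3, by simp [two_mul], ?_, fun j => ?_, fun j => ?_⟩
  · rintro (r | r)
    exacts [hT r, fun _ _ => rfl]
  · simp [hn]
  · have := hd j
    rw [← Fin.sum_univ_eq_sum_range (fun t => bi (U t j) - bi (V t j)), sum_sub_distrib] at this
    simp only [Fintype.sum_sum_type, Sum.elim_inl, Sum.elim_inr, hn, sum_sub_distrib, sum_const,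
      card_univ, Fintype.card_fin, nsmul_eq_mul, mul_one]
    omega

lemma Amp.step {k n : ℕ} {a E : ℤ} (h : Amp L A k n a E) :
    Amp L A k (n ^ 3) (4 * a ^ 3) (6 * a ^ 2 * E - 2 * E ^ 3) := by
  obtain ⟨Λ, _, _, s, ι, _, U, V, h1, h2, h3, h4, h5, h6, h7, h8⟩ := h
  have h2' : ∀ x, s (fun _ => x) = x := h2
  refine ⟨Λ × Λ × Λ, inferInstance, inferInstance,
    fun Y => s fun j₁ => s fun j₂ => s fun j₃ => Y (j₁, j₂, j₃), ι × ι × ι, inferInstance,
    fun r j => maj (U r.1 j.1) (U r.2.1 j.2.1) (U r.2.2 j.2.2),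
    fun r j => maj (V r.1 j.1) (V r.2.1 j.2.1) (V r.2.2 j.2.2),
    h1.comp fun _ => h1.comp fun _ => h1.comp fun _ => Clo.proj _, fun x => ?_, ?_,
    h4.comap Prod.fst ?_, ?_, fun r x y => ?_, fun j => ?_, fun j => ?_⟩
  · simp only [h2']
  · simp only [Fintype.card_prod]
    calc _ ≤ n * (n * n) := by gcongr
      _ = _ := by ring
  · rintro d ⟨U, V, hT, hd⟩
    refine ⟨U ∘ Prod.fst, V ∘ Prod.fst, fun x y => ?_, fun _ => hd _⟩
    show (s fun j₁ => s fun _ => s fun _ => bv U x y j₁) =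
      s fun j₁ => s fun _ => s fun _ => bv V x y j₁
    simp only [h2']
    exact hT x y
  · simp only [Fintype.card_prod]
    push_cast
    rw [h5]
    ring
  · simp only [bv]
    have e₃ := fun p q => (h6 r.2.2).app fun b => if maj p q b = true then y else x
    have e₂ := fun p => (h6 r.2.1).app fun q =>
      s fun j => if maj p q (V r.2.2 j) = true then y else x
    simp only [e₃, e₂]
    exact (h6 r.1).app fun p => s fun j₂ => s fun j₃ =>
      if maj p (V r.2.1 j₂) (V r.2.2 j₃) = true then y else x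
  · rw [sum_maj _ _ _ (h7 _) (h7 _) (h7 _), h5]
    ring
  · rw [sum_maj _ _ _ (h8 _) (h8 _) (h8 _), h5]
    ring

lemma Amp.iter {k : ℕ} (hk : 2 ^ 20 ≤ k) (h : W L A k) (n : ℕ) (hn : n ≤ 24) :
    ∃ a E : ℤ, Amp L A k (4 ^ (k * 3 ^ n)) a E ∧ 2 * a = (2 * k) ^ (3 ^ n) ∧
      (7 / 5 : ℝ) ^ n * a ≤ k * E ∧ (k * E : ℝ) ≤ (3 / 2) ^ n * a := by
  have hk' : (2 ^ 20 : ℝ) ≤ k := by exact_mod_cast hk
  induction n with
  | zero => exact ⟨k, 1, by simpa using Amp.base (by omega) h, by simp, by simp, by simp⟩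
  | succ n ih =>
    obtain ⟨a, E, h1, h2, h3, h4⟩ := ih (by omega)
    have ha : (0 : ℝ) < a := by
      have : (0 : ℤ) < (2 * k) ^ (3 ^ n) := by
        have : 0 < k := by omega
        positivity
      have : 0 < a := by omega
      exact_mod_cast this
    have hE : (0 : ℝ) ≤ E := by
      have : (0 : ℝ) < k * E := lt_of_lt_of_le (by positivity) h3
      by_contra hn
      nlinarith
    have hE' : (E : ℝ) ≤ 2 / 5 * a := by
      have e1 : (3 / 2 : ℝ) ^ n ≤ (3 / 2) ^ 24 := pow_le_pow_right₀ (by norm_num) (by omega)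
      have e2 : (3 / 2 : ℝ) ^ 24 ≤ 2 ^ 20 * (2 / 5) := by norm_num
      have e3 : (2 ^ 20 : ℝ) * E ≤ 2 ^ 20 * (2 / 5) * a := by nlinarith
      linarith
    have hs : (E : ℝ) ^ 2 ≤ a ^ 2 / 5 := by nlinarith
    have h5 := h1.step
    rw [← pow_mul, mul_assoc k, ← pow_succ] at h5
    refine ⟨_, _, h5, ?_, ?_, ?_⟩
    · rw [pow_succ 3, pow_mul, ← h2]
      ring
    · push_cast
      have e1 : (k : ℝ) * (6 * a ^ 2 * E - 2 * E ^ 3) = k * E * (6 * a ^ 2 - 2 * E ^ 2) := by ring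
      have e2 : (7 / 5 : ℝ) ^ (n + 1) * (4 * a ^ 3) = (7 / 5) ^ n * a * (28 / 5 * a ^ 2) := by
        ring
      rw [e1, e2]
      exact mul_le_mul h3 (by linarith) (by positivity) (by positivity)
    · push_cast
      have e1 : (k : ℝ) * (6 * a ^ 2 * E - 2 * E ^ 3) = k * E * (6 * a ^ 2 - 2 * E ^ 2) := by ring
      have e2 : (3 / 2 : ℝ) ^ (n + 1) * (4 * a ^ 3) = (3 / 2) ^ n * a * (6 * a ^ 2) := by
        ring
      rw [e1, e2]
      exact mul_le_mul h4 (by nlinarith) (by nlinarith) (by positivity)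

lemma amp {k : ℕ} (hk : 2 ^ 20 ≤ k) (h : W L A k) :
    ∃ (Λ : Type) (_ : Fintype Λ) (_ : Nonempty Λ) (s : (Λ → A) → A) (q K E : ℕ),
      Clo L s ∧ Idem s ∧ q ≤ 2 ^ 39 ∧ Fintype.card Λ ≤ 4 ^ (k * q) ∧
      Dr (Drift (Tst s)) k (fun _ => 1) ∧ Dr (Drift (Tst s)) K (fun _ => E) ∧
      1600 * K ≤ k * E ∧ 0 < E ∧ E ≤ (2 * k) ^ q := by
  obtain ⟨a, E, ⟨Λ, _, _, s, ι, _, U, V, h1, h2, h3, h4, h5, h6, h7, h8⟩, e1, e2, e3⟩ :=
    Amp.iter hk h 24 le_rfl
  have hq : 3 ^ 24 ≤ 2 ^ 39 := by norm_num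
  generalize 3 ^ 24 = q at h3 e1 hq
  have hk' : (2 ^ 20 : ℝ) ≤ k := by exact_mod_cast hk
  have ha : 0 < a := by
    have : (0 : ℤ) < (2 * k) ^ q := by
      have : 0 < k := by omega
      positivity
    omega
  have ha' : (0 : ℝ) < a := by exact_mod_cast ha
  have e4 : 3200 * a ≤ k * E := by
    have : (3200 : ℝ) ≤ (7 / 5) ^ 24 := by norm_num
    have : (3200 : ℝ) * a ≤ k * E := by nlinarith
    exact_mod_cast this
  have hE : 0 < E := by
    by_contra hn
    have : (0 : ℤ) ≤ k := by positivity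
    nlinarith
  have e5 : E ≤ a := by
    have : (3 / 2 : ℝ) ^ 24 ≤ 2 ^ 20 := by norm_num
    have hE' : (0 : ℝ) < E := by exact_mod_cast hE
    have : (E : ℝ) ≤ a := by nlinarith
    exact_mod_cast this
  obtain ⟨E, rfl⟩ := Int.eq_ofNat_of_zero_le hE.le
  refine ⟨Λ, inferInstance, inferInstance, s, q, Fintype.card ι, E, h1, h2, hq, h3, h4, ?_, ?_,
    by omega, ?_⟩
  · have := Dr.sum (Tst.zero_mem s) (univ : Finset ι) (n := fun _ => 1)
      (f := fun r j => bi (U r j) - bi (V r j)) fun r _ => Dr.one ⟨_, _, h6 r, fun _ => rfl⟩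
    simp only [sum_const, card_univ, smul_eq_mul, mul_one] at this
    refine this.congr fun j => ?_
    rw [sum_sub_distrib, h7, h8]
    ring
  · have : (1600 * Fintype.card ι : ℤ) ≤ k * E := by omega
    exact_mod_cast this
  · have : (E : ℤ) ≤ (2 * k) ^ q := by omega
    exact_mod_cast this

end Pool.Agent.Lib.MP_71d0e6_al.SD
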