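import Pool.Agent.Lib.MP_71d0e6_al.SD.Defs

namespace Pool.Agent.Lib.MP_71d0e6_al.SD

open FirstOrder FirstOrder.Language Finset

universe u v w

/-- Indicator of a Boolean. -/
def bi (b : Bool) : ℤ := if b = true then 1 else 0

@[simp] lemma bi_true : bi true = 1 := rfl
@[simp] lemma bi_false : bi false = 0 := rfl

lemma bi_sub_le (a b : Bool) : |bi a - bi b| ≤ 1 := by
  cases a <;> cases b <;> simp

section Dr

variable {X : Type}

/-- `f` is a sum of `n` members of `D`. -/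
def Dr (D : Set (X → ℤ)) (n : ℕ) (f : X → ℤ) : Prop :=
  ∃ l : ℕ → X → ℤ, (∀ t, l t ∈ D) ∧ ∀ x, ∑ t ∈ range n, l t x = f x

variable {D : Set (X → ℤ)}

lemma Dr.zero (h0 : (0 : X → ℤ) ∈ D) (n : ℕ) : Dr D n 0 :=
  ⟨fun _ => 0, fun _ => h0, fun x => by simp⟩

lemma Dr.one {f : X → ℤ} (h : f ∈ D) : Dr D 1 f :=
  ⟨fun _ => f, fun _ => h, fun x => by simp⟩

lemma Dr.add {n m : ℕ} {f g : X → ℤ} (hf : Dr D n f) (hg : Dr D m g) :
    Dr D (n + m) (f + g) := by
  obtain ⟨l, hl, hf⟩ := hf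
  obtain ⟨l', hl', hg⟩ := hg
  refine ⟨fun t => if t < n then l t else l' (t - n), fun t => ?_, fun x => ?_⟩
  · dsimp only
    split_ifs
    exacts [hl _, hl' _]
  · rw [sum_range_add, Pi.add_apply, ← hf, ← hg]
    congr 1
    · exact sum_congr rfl fun t ht => by simp [mem_range.1 ht]
    · exact sum_congr rfl fun t _ => by simp

lemma Dr.congr {n : ℕ} {f g : X → ℤ} (hf : Dr D n f) (h : ∀ x, f x = g x) : Dr D n g := by
  rwa [← funext h]

lemma Dr.mono (h0 : (0 : X → ℤ) ∈ D) {n m : ℕ} {f : X → ℤ} (hf : Dr D n f) (h : n ≤ m) :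
    Dr D m f := by
  obtain ⟨d, rfl⟩ := Nat.exists_eq_add_of_le h
  simpa using hf.add (Dr.zero h0 d)

lemma Dr.sum (h0 : (0 : X → ℤ) ∈ D) {ι : Type} (S : Finset ι) {n : ι → ℕ} {f : ι → X → ℤ}
    (h : ∀ i ∈ S, Dr D (n i) (f i)) : Dr D (∑ i ∈ S, n i) (fun x => ∑ i ∈ S, f i x) := by
  classical
  induction S using Finset.induction_on with
  | empty => exact (Dr.zero h0 _).congr fun x => by simp
  | insert a S ha ih =>
    rw [sum_insert ha]
    exact ((h a (mem_insert_self _ _)).add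
      (ih fun i hi => h i (mem_insert_of_mem hi))).congr fun x => by simp [sum_insert ha]

lemma Dr.nsmul (h0 : (0 : X → ℤ) ∈ D) {n : ℕ} {f : X → ℤ} (h : Dr D n f) (m : ℕ) :
    Dr D (m * n) (fun x => m * f x) := by
  simpa using Dr.sum h0 (range m) (n := fun _ => n) (f := fun _ => f) fun _ _ => h

lemma Dr.comap {Y : Type} {D' : Set (Y → ℤ)} (π : Y → X) (hπ : ∀ d ∈ D, d ∘ π ∈ D') {n : ℕ}
    {f : X → ℤ} (h : Dr D n f) : Dr D' n (f ∘ π) := by
  obtain ⟨l, hl, hf⟩ := h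
  exact ⟨fun t => l t ∘ π, fun t => hπ _ (hl t), fun y => hf (π y)⟩

/-- The drifts of the pairs in a relation `T` on Boolean functions. -/
def Drift (T : (X → Bool) → (X → Bool) → Prop) : Set (X → ℤ) :=
  {d | ∃ U V, T U V ∧ ∀ x, d x = bi (U x) - bi (V x)}

lemma Drift.abs_le {T : (X → Bool) → (X → Bool) → Prop} {d : X → ℤ} (h : d ∈ Drift T) (x : X) :
    |d x| ≤ 1 := by
  obtain ⟨U, V, -, h⟩ := h
  rw [h]
  exact bi_sub_le _ _

lemma Dr.tests {T : (X → Bool) → (X → Bool) → Prop} {n : ℕ} {f : X → ℤ}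
    (h : Dr (Drift T) n f) : ∃ U V : ℕ → X → Bool, (∀ t, T (U t) (V t)) ∧
      ∀ x, ∑ t ∈ range n, (bi (U t x) - bi (V t x)) = f x := by
  obtain ⟨l, hl, hf⟩ := h
  choose U V hT hd using hl
  exact ⟨U, V, hT, fun x => by rw [← hf]; exact sum_congr rfl fun t _ => (hd t x).symm⟩

end Dr

section Ops

variable {A : Type w} {Λ : Type}

/-- `y` on `U`, `x` elsewhere. -/
def bv {X : Type} (U : X → Bool) (x y : A) : X → A := fun j => if U j = true then y else x

/-- Idempotence. -/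
def Idem (s : (Λ → A) → A) : Prop := ∀ x, s (fun _ => x) = x

/-- A two-variable identity of `s`. -/
def Tst (s : (Λ → A) → A) (U V : Λ → Bool) : Prop := ∀ x y, s (bv U x y) = s (bv V x y)

lemma Tst.zero_mem (s : (Λ → A) → A) : (0 : Λ → ℤ) ∈ Drift (Tst s) :=
  ⟨fun _ => false, fun _ => false, fun _ _ => rfl, fun _ => by simp⟩

/-- Term operations. -/
def Clo (L : FirstOrder.Language.{u, v}) [L.Structure A] (s : (Λ → A) → A) : Prop :=
  ∃ t : L.Term Λ, ∀ x, t.realize x = s x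

variable {L : FirstOrder.Language.{u, v}} [L.Structure A]

lemma Clo.proj (j : Λ) : Clo L (fun x : Λ → A => x j) := ⟨.var j, fun _ => rfl⟩

lemma Clo.comp {Λ' : Type} {s : (Λ → A) → A} (hs : Clo L s) {f : Λ → (Λ' → A) → A}
    (hf : ∀ j, Clo L (f j)) : Clo L (fun x => s fun j => f j x) := by
  obtain ⟨t, ht⟩ := hs
  choose g hg using hf
  exact ⟨t.subst g, fun x => by simp only [Term.realize_subst, hg, ht]⟩

/-- Some idempotent term operation has `k` tests of total drift one. -/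
def W' (L : FirstOrder.Language.{u, v}) (A : Type w) [L.Structure A] (k : ℕ) : Prop :=
  ∃ (Λ : Type) (s : (Λ → A) → A), Clo L s ∧ Idem s ∧ Dr (Drift (Tst s)) k (fun _ => 1)

lemma W'.mono {k k' : ℕ} (h : W' L A k) (hk : k ≤ k') : W' L A k' := by
  obtain ⟨Λ, s, h1, h2, h3⟩ := h
  exact ⟨Λ, s, h1, h2, h3.mono (Tst.zero_mem s) hk⟩

lemma sum_bi {k : ℕ} (U : ℕ → Bool) :
    ∑ t ∈ range k, bi (U t) = ((univ.filter fun r : Fin k => U r = true).card : ℤ) := by
  rw [← Fin.sum_univ_eq_sum_range (fun t => bi (U t)), card_filter]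
  push_cast
  rfl

lemma W'.toW {k : ℕ} (h : W' L A k) : W L A k := by
  obtain ⟨Λ, s, ⟨t, ht⟩, h2, h3⟩ := h
  obtain ⟨U, V, hT, hd⟩ := h3.tests
  let π : Λ → Pos k := fun j => ⟨(univ.filter fun r : Fin k => U r j = true,
    univ.filter fun r : Fin k => V r j = true), by
      have := hd j
      rw [sum_sub_distrib, sum_bi (fun t => U t j), sum_bi (fun t => V t j)] at this
      dsimp only
      omega⟩
  refine ⟨t.relabel π, fun x => ?_, fun r x y => ?_⟩
  · rw [Term.realize_relabel, ht]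
    exact h2 x
  · rw [Term.realize_relabel, Term.realize_relabel, ht, ht]
    convert hT r x y using 2 <;> funext j <;> simp [π, bv]

instance (k : ℕ) : Fintype (Pos k) := by
  unfold Pos
  infer_instance

lemma card_pos_le (k : ℕ) : Fintype.card (Pos k) ≤ 4 ^ k := by
  refine (Fintype.card_subtype_le _).trans ?_
  rw [Fintype.card_prod, Fintype.card_finset, Fintype.card_fin, ← mul_pow]
  exact le_rfl

lemma W.sys {k : ℕ} (h : W L A k) : ∃ s : (Pos k → A) → A, Clo L s ∧ Idem s ∧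
    Dr (Drift (Tst s)) k (fun _ => 1) := by
  obtain ⟨t, h1, h2⟩ := h
  refine ⟨fun x => t.realize x, ⟨t, fun _ => rfl⟩, h1, ?_⟩
  have := Dr.sum (Tst.zero_mem fun x : Pos k → A => t.realize x) (univ : Finset (Fin k))
    (n := fun _ => 1) (f := fun r p => bi (decide (r ∈ p.1.1)) - bi (decide (r ∈ p.1.2)))
    fun r _ => Dr.one ⟨fun p => decide (r ∈ p.1.1), fun p => decide (r ∈ p.1.2), fun x y => by
      convert h2 r x y using 2 <;> funext p <;> simp [bv], fun _ => rfl⟩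
  simp only [sum_const, card_univ, Fintype.card_fin, smul_eq_mul, mul_one] at this
  refine this.congr fun p => ?_
  have hp := p.2
  simp [bi, sum_sub_distrib, hp]

end Ops

end Pool.Agent.Lib.MP_71d0e6_al.SD
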