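import Pool.Agent.Lib.MP_71d0e6_al.SD.Basic

namespace Pool.Agent.Lib.MP_71d0e6_al.SD

open Finset

variable {Λ : Type}

lemma signs [Fintype Λ] (x : ℕ → Λ → ℝ) (hx : ∀ t w, |x t w| ≤ 2) (θ : ℝ) (p : ℕ) :
    ∃ ε : ℕ → Bool, ∑ w, Real.cosh (θ * ∑ t ∈ range p, (if ε t = true then x t w else - x t w))
      ≤ Fintype.card Λ * Real.exp (2 * θ ^ 2 * p) := by
  induction p with
  | zero => exact ⟨fun _ => true, by simp⟩
  | succ p ih =>
    obtain ⟨ε, hε⟩ := ih
    set S : Λ → ℝ := fun w => ∑ t ∈ range p, (if ε t = true then x t w else - x t w) with hS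
    have h1 : ∀ (b : Bool) w, ∑ t ∈ range (p + 1),
        (if Function.update ε p b t = true then x t w else - x t w) =
        S w + (if b = true then x p w else - x p w) := fun b w => by
      rw [sum_range_succ, Function.update_self]
      congr 1
      exact sum_congr rfl fun t ht => by rw [Function.update_of_ne (mem_range.1 ht).ne]
    have h2 : ∑ w, Real.cosh (θ * (S w + x p w)) + ∑ w, Real.cosh (θ * (S w + - x p w)) ≤
        2 * (Fintype.card Λ * Real.exp (2 * θ ^ 2 * (p + 1 : ℕ))) := by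
      rw [← sum_add_distrib]
      calc _ ≤ ∑ w, 2 * Real.exp (2 * θ ^ 2) * Real.cosh (θ * S w) := by
            refine sum_le_sum fun w _ => ?_
            have e : Real.cosh (θ * (S w + x p w)) + Real.cosh (θ * (S w + - x p w)) =
                2 * Real.cosh (θ * x p w) * Real.cosh (θ * S w) := by
              rw [mul_add, mul_add, mul_neg, Real.cosh_add, Real.cosh_add, Real.cosh_neg,
                Real.sinh_neg]
              ring
            rw [e]
            have h3 : Real.cosh (θ * x p w) ≤ Real.exp (2 * θ ^ 2) := by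
              refine (Real.cosh_le_exp_half_sq _).trans (Real.exp_le_exp.2 ?_)
              have h4 : x p w ^ 2 ≤ 4 := by
                have := abs_le.1 (hx p w)
                nlinarith
              nlinarith [sq_nonneg θ]
            have := Real.cosh_pos (θ * S w)
            gcongr
        _ = 2 * Real.exp (2 * θ ^ 2) * ∑ w, Real.cosh (θ * S w) := by rw [mul_sum]
        _ ≤ 2 * Real.exp (2 * θ ^ 2) * (Fintype.card Λ * Real.exp (2 * θ ^ 2 * p)) := by
            gcongr
        _ = _ := by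
            push_cast
            rw [mul_add, mul_one, Real.exp_add]
            ring
    by_cases h : ∑ w, Real.cosh (θ * (S w + x p w)) ≤
        Fintype.card Λ * Real.exp (2 * θ ^ 2 * (p + 1 : ℕ))
    · exact ⟨Function.update ε p true, by simpa only [h1, if_true] using h⟩
    · refine ⟨Function.update ε p false, ?_⟩
      simp only [h1, Bool.false_eq_true, if_false]
      linarith

/-- Every sum of `2 p` members of `D` splits into two sums of `p` members differing by at
most `μ`. -/
def Spl (D : Set (Λ → ℤ)) (p : ℕ) (μ : ℝ) : Prop :=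
  ∀ f, Dr D (2 * p) f → ∃ f₁ f₂, Dr D p f₁ ∧ Dr D p f₂ ∧ (∀ w, f w = f₁ w + f₂ w) ∧
    ∀ w, |((f₁ w - f₂ w : ℤ) : ℝ)| ≤ μ

lemma spl_triv {D : Set (Λ → ℤ)} (hD : ∀ d ∈ D, ∀ w, |d w| ≤ 1) (p : ℕ) : Spl D p (2 * p) := by
  rintro f ⟨l, hl, hf⟩
  refine ⟨_, _, ⟨l, hl, fun _ => rfl⟩, ⟨fun t => l (p + t), fun _ => hl _, fun _ => rfl⟩,
    fun w => by rw [← hf, two_mul, sum_range_add], fun w => ?_⟩
  have : |∑ t ∈ range p, l t w - ∑ t ∈ range p, l (p + t) w| ≤ 2 * p := by
    rw [← sum_sub_distrib]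
    refine (abs_sum_le_sum_abs _ _).trans ((sum_le_card_nsmul _ _ 2 fun t _ => ?_).trans ?_)
    · have := abs_le.1 (hD _ (hl t) w)
      have := abs_le.1 (hD _ (hl (p + t)) w)
      rw [abs_le]
      omega
    · simp [mul_comm]
  exact_mod_cast this

lemma spl_cosh [Fintype Λ] {D : Set (Λ → ℤ)} (hD : ∀ d ∈ D, ∀ w, |d w| ≤ 1) (p : ℕ) {θ η : ℝ}
    (hθ : 0 < θ) (hη : 2 * (Fintype.card Λ : ℝ) ≤ Real.exp η) :
    Spl D p (η / θ + 2 * θ * p) := by
  rintro f ⟨l, hl, hf⟩
  obtain ⟨ε, hε⟩ := signs (fun t w => ((l t w - l (p + t) w : ℤ) : ℝ)) (fun t w => by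
    have := abs_le.1 (hD _ (hl t) w)
    have := abs_le.1 (hD _ (hl (p + t)) w)
    have : |l t w - l (p + t) w| ≤ 2 := by
      rw [abs_le]
      omega
    exact_mod_cast this) θ p
  refine ⟨_, _, ⟨fun t => if ε t = true then l t else l (p + t), fun t => ?_, fun _ => rfl⟩,
    ⟨fun t => if ε t = true then l (p + t) else l t, fun t => ?_, fun _ => rfl⟩,
    fun w => ?_, fun w => ?_⟩
  · dsimp only
    split_ifs <;> exact hl _
  · dsimp only
    split_ifs <;> exact hl _
  · rw [← hf, two_mul, sum_range_add, ← sum_add_distrib, ← sum_add_distrib]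
    refine sum_congr rfl fun t _ => ?_
    dsimp only
    split_ifs
    · rfl
    · exact add_comm _ _
  · have e : (((∑ t ∈ range p, (if ε t = true then l t else l (p + t)) w) -
        ∑ t ∈ range p, (if ε t = true then l (p + t) else l t) w : ℤ) : ℝ) =
        ∑ t ∈ range p, (if ε t = true then ((l t w - l (p + t) w : ℤ) : ℝ)
          else - ((l t w - l (p + t) w : ℤ) : ℝ)) := by
      push_cast
      rw [← sum_sub_distrib]
      refine sum_congr rfl fun t _ => ?_
      split_ifs <;> ring
    rw [e]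
    set X := ∑ t ∈ range p, (if ε t = true then ((l t w - l (p + t) w : ℤ) : ℝ)
          else - ((l t w - l (p + t) w : ℤ) : ℝ))
    have h1 : Real.cosh (θ * X) ≤ Fintype.card Λ * Real.exp (2 * θ ^ 2 * p) :=
      le_trans (single_le_sum (f := fun w => Real.cosh (θ * ∑ t ∈ range p,
        (if ε t = true then ((l t w - l (p + t) w : ℤ) : ℝ)
          else - ((l t w - l (p + t) w : ℤ) : ℝ)))) (fun _ _ => (Real.cosh_pos _).le)
        (mem_univ w)) hε
    have h2 : Real.exp (θ * |X|) ≤ 2 * Real.cosh (θ * X) := by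
      rw [← Real.cosh_abs, abs_mul, abs_of_pos hθ, Real.cosh_eq]
      have := Real.exp_pos (-(θ * |X|))
      linarith
    have h3 : Real.exp (θ * |X|) ≤ Real.exp (η + 2 * θ ^ 2 * p) := by
      rw [Real.exp_add]
      have := Real.exp_pos (2 * θ ^ 2 * p)
      nlinarith
    have h4 := Real.exp_le_exp.1 h3
    rw [div_add' _ _ _ hθ.ne', le_div_iff₀ hθ]
    nlinarith

lemma beatty (F : ℤ) {N : ℕ} (hN : 0 < N) : ∃ H : ℕ → ℤ, H 0 = 0 ∧ H N = F ∧
    (∀ a b q, |(H (a + q) - H a) - (H (b + q) - H b)| ≤ 1) ∧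
    ∀ u, |H (u + 1) - H u| * N ≤ |F| + N := by
  have hN' : (0 : ℤ) < N := by exact_mod_cast hN
  have h1 : ∀ x : ℕ, (N : ℤ) * (F * x / N) ≤ F * x := fun x => Int.mul_ediv_self_le hN'.ne'
  have h2 : ∀ x : ℕ, F * x < (N : ℤ) * (F * x / N) + N := fun x =>
    Int.lt_mul_ediv_self_add hN'
  refine ⟨fun x => F * x / N, by simp, Int.mul_ediv_cancel _ hN'.ne', fun a b q => ?_,
    fun u => ?_⟩
  · have e1 := h1 (a + q)
    have e2 := h2 (a + q)
    have e3 := h1 a
    have e4 := h2 a
    have e5 := h1 (b + q)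
    have e6 := h2 (b + q)
    have e7 := h1 b
    have e8 := h2 b
    push_cast at *
    rw [abs_le]
    constructor <;> nlinarith
  · have e1 := h1 (u + 1)
    have e2 := h2 (u + 1)
    have e3 := h1 u
    have e4 := h2 u
    have e5 := le_abs_self F
    have e6 := neg_abs_le F
    push_cast at *
    rw [← abs_of_pos hN', ← abs_mul, abs_of_pos hN', abs_le]
    constructor <;> nlinarith

lemma box {D : Set (Λ → ℤ)} (c : ℕ) (imb : ℕ → ℝ) (h0 : ∀ i, 0 ≤ imb i)
    (hS : ∀ i, Spl D (c * 2 ^ i) (imb i)) (n : ℕ) :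
    ∀ (m : ℕ) (f : Λ → ℤ) (Φ : Λ → ℕ → ℤ), Dr D (c * 2 ^ n) f →
      (∀ w a b q, |(Φ w (a + q) - Φ w a) - (Φ w (b + q) - Φ w b)| ≤ 2 * q + m) →
      (∀ w, Φ w (2 ^ n) - Φ w 0 = f w) →
      ∃ (asg : ℕ → Λ → ℤ) (g : Λ → ℕ → ℤ → ℤ), (∀ u, Dr D c (asg u)) ∧
        (∀ w i u, g w i u ≠ 0 → 0 ≤ u ∧ u + 2 ^ i < 2 ^ n) ∧
        (∀ w i u, ((|g w i u| : ℤ) : ℝ) * 2 ^ (i + 1) ≤ 4 * 2 ^ i + imb i + (m + n)) ∧
        ∀ w (u : ℕ), u < 2 ^ n → Φ w (u + 1) - Φ w u - asg u w =
          ∑ i ∈ range n, (g w i u - g w i (u - 2 ^ i)) := by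
  induction n with
  | zero =>
    intro m f Φ hf _ hT
    refine ⟨fun _ => f, fun _ _ _ => 0, fun _ => by simpa using hf, fun _ _ _ h => absurd rfl h,
      fun w i u => ?_, fun w u hu => ?_⟩
    · have := h0 i
      simp only [abs_zero, Int.cast_zero, zero_mul]
      positivity
    · obtain rfl : u = 0 := by omega
      have := hT w
      simp only [pow_zero] at this
      simp [this]
  | succ n ih =>
    intro m f Φ hf hU hT
    obtain ⟨f₁, f₂, hf₁, hf₂, hs, hd⟩ := hS n f (by rwa [pow_succ, ← mul_assoc, mul_comm] at hf)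
    choose H H0 HN HU HB using fun w =>
      beatty (Φ w (2 ^ n) - Φ w 0 - f₁ w) (N := 2 ^ n) (by positivity)
    obtain ⟨a₁, g₁, ha₁, hs₁, hb₁, he₁⟩ := ih (m + 1) f₁ (fun w x => Φ w x - H w x) hf₁
      (fun w a b q => by
        have e1 := abs_le.1 (hU w a b q)
        have e2 := abs_le.1 (HU w a b q)
        rw [abs_le]
        push_cast
        omega)
      (fun w => by
        have := H0 w
        have := HN w
        omega)
    obtain ⟨a₂, g₂, ha₂, hs₂, hb₂, he₂⟩ := ih (m + 1) f₂ (fun w x => Φ w (2 ^ n + x) + H w x) hf₂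
      (fun w a b q => by
        have e1 := abs_le.1 (hU w (2 ^ n + a) (2 ^ n + b) q)
        have e2 := abs_le.1 (HU w a b q)
        rw [add_assoc, add_assoc] at e1
        rw [abs_le]
        push_cast
        omega)
      (fun w => by
        have := H0 w
        have := HN w
        have := hs w
        have := hT w
        rw [pow_succ, mul_two] at this
        simp only [add_zero]
        omega)
    have hp : ∀ i : ℕ, (0 : ℤ) < 2 ^ i := fun i => by positivity
    have hN : ((2 ^ n : ℕ) : ℤ) = 2 ^ n := by push_cast; rfl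
    have z₁ : ∀ w i u, ¬ (0 ≤ u ∧ u + 2 ^ i < 2 ^ n) → g₁ w i u = 0 := fun w i u h => by
      by_contra h'
      exact h (hs₁ w i u h')
    have z₂ : ∀ w i u, ¬ (0 ≤ u ∧ u + 2 ^ i < 2 ^ n) → g₂ w i u = 0 := fun w i u h => by
      by_contra h'
      exact h (hs₂ w i u h')
    refine ⟨fun u => if u < 2 ^ n then a₁ u else a₂ (u - 2 ^ n),
      fun w i u => if i = n then (if 0 ≤ u ∧ u < 2 ^ n then H w (u.toNat + 1) - H w u.toNat
        else 0) else g₁ w i u + g₂ w i (u - 2 ^ n), fun u => ?_, fun w i u h => ?_,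
      fun w i u => ?_, fun w u hu => ?_⟩
    · dsimp only
      split_ifs
      exacts [ha₁ _, ha₂ _]
    · dsimp only at h
      rw [pow_succ]
      have := hp i
      have := hp n
      split_ifs at h with h1 h2
      · subst h1
        omega
      · exact absurd rfl h
      · by_cases h3 : g₁ w i u = 0
        · have := hs₂ w i _ (by rwa [h3, zero_add] at h)
          omega
        · have := hs₁ w i _ h3
          omega
    · dsimp only
      have := h0 i
      split_ifs with h1 h2
      · subst h1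
        have e1 := HB w u.toNat
        have e2 := abs_le.1 (hU w 0 (2 ^ i) (2 ^ i))
        have e3 := hd w
        have e4 := hs w
        have e5 := hT w
        rw [pow_succ, mul_two] at e5
        rw [zero_add] at e2
        have e6 : 2 * |Φ w (2 ^ i) - Φ w 0 - f₁ w| ≤ 2 * (2 ^ i : ℕ) + m + |f₁ w - f₂ w| := by
          have := le_abs_self (f₁ w - f₂ w)
          have := neg_abs_le (f₁ w - f₂ w)
          rcases abs_cases (Φ w (2 ^ i) - Φ w 0 - f₁ w) with h | h <;> omega
        have e7 : |H w (u.toNat + 1) - H w u.toNat| * 2 ^ (i + 1) ≤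
            4 * 2 ^ i + m + |f₁ w - f₂ w| := by
          rw [hN] at e1 e6
          rw [pow_succ, ← mul_assoc]
          omega
        have e8 : ((|H w (u.toNat + 1) - H w u.toNat| : ℤ) : ℝ) * 2 ^ (i + 1) ≤
            4 * 2 ^ i + m + |((f₁ w - f₂ w : ℤ) : ℝ)| := by exact_mod_cast e7
        push_cast at e8 e3 ⊢
        have : (0 : ℝ) ≤ i := by positivity
        linarith
      · simp only [abs_zero, Int.cast_zero, zero_mul]
        positivity
      · have e : ((m : ℝ) + ((n + 1 : ℕ) : ℝ)) = ((m + 1 : ℕ) : ℝ) + n := by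
          push_cast
          ring
        rw [e]
        by_cases h3 : g₁ w i u = 0
        · rw [h3, zero_add]
          exact hb₂ _ _ _
        · have := hs₁ w i _ h3
          have := hp i
          rw [z₂ w i _ (by omega), add_zero]
          exact hb₁ _ _ _
    · rw [sum_range_succ]
      simp only [if_true]
      have e : ∀ i ∈ range n, ¬ i = n := fun i hi => (mem_range.1 hi).ne
      have := hp n
      by_cases h : u < 2 ^ n
      · have h' : (u : ℤ) < 2 ^ n := by exact_mod_cast h
        rw [if_pos h, if_pos ⟨by omega, h'⟩, if_neg (by omega), Int.toNat_natCast,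
          sum_congr rfl (g := fun i => g₁ w i u - g₁ w i (u - 2 ^ i)) fun i hi => by
            have := hp i
            rw [if_neg (e i hi), if_neg (e i hi), z₂ w i _ (by omega), z₂ w i _ (by omega)]
            ring, ← he₁ w u h]
        ring
      · obtain ⟨v, rfl⟩ : ∃ v, u = 2 ^ n + v := ⟨u - 2 ^ n, by omega⟩
        have hv : v < 2 ^ n := by
          rw [pow_succ] at hu
          omega
        have h' : (v : ℤ) < 2 ^ n := by exact_mod_cast hv
        have e' : ((2 ^ n + v : ℕ) : ℤ) = 2 ^ n + v := by push_cast; rfl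
        rw [if_neg h, e', if_neg (by omega), if_pos (by omega), add_sub_cancel_left,
          Int.toNat_natCast, Nat.add_sub_cancel_left,
          sum_congr rfl (g := fun i => g₂ w i v - g₂ w i (v - 2 ^ i)) fun i hi => by
            have := hp i
            rw [if_neg (e i hi), if_neg (e i hi), z₁ w i _ (by omega), z₁ w i _ (by omega)]
            congr 2 <;> ring_nf, ← he₂ w v hv, add_assoc]
        ring

end Pool.Agent.Lib.MP_71d0e6_al.SD
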