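import Mathlib

namespace Pool.Agent.Lib.MP_71d0e6_al.SD

open FirstOrder FirstOrder.Language

universe u v w w'

/-- `θ` is a congruence of the `L`-algebra `B`: an equivalence relation compatible with all
basic operations. -/
def IsCon (L : FirstOrder.Language.{u, v}) {B : Type w} [L.Structure B] (θ : Setoid B) : Prop :=
  ∀ (n : ℕ) (f : L.Functions n) (x y : Fin n → B), (∀ i, θ (x i) (y i)) →
    θ (Structure.funMap f x) (Structure.funMap f y)

/-- The congruence lattice of `B` is meet-semidistributive. -/
def MeetSD (L : FirstOrder.Language.{u, v}) (B : Type w) [L.Structure B] : Prop :=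
  ∀ α β γ : Setoid B, IsCon L α → IsCon L β → IsCon L γ →
    α ⊓ β = α ⊓ γ → α ⊓ (β ⊔ γ) = α ⊓ β

/-- `B` satisfies every identity that holds in `A`. -/
def InVariety (L : FirstOrder.Language.{u, v}) (A : Type w) (B : Type w') [L.Structure A]
    [L.Structure B] : Prop :=
  ∀ (n : ℕ) (t t' : L.Term (Fin n)), (∀ a : Fin n → A, t.realize a = t'.realize a) →
    ∀ b : Fin n → B, t.realize b = t'.realize b

/-- Pairs `(p, q)` of subsets of a `k`-element set with `|p| = |q| + 1`. -/
def Pos (k : ℕ) : Type :=
  {p : Finset (Fin k) × Finset (Fin k) // p.1.card = p.2.card + 1}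

/-- The strong Maltsev condition `W k`: an idempotent term `s` with one variable for each
`(p, q)` in `Pos k` such that, for every `r`, putting `y` at the places with `r ∈ p` and `x`
elsewhere gives the same value as putting `y` at the places with `r ∈ q` and `x` elsewhere. -/
def W (L : FirstOrder.Language.{u, v}) (A : Type w) [L.Structure A] (k : ℕ) : Prop :=
  ∃ s : L.Term (Pos k), (∀ x : A, s.realize (fun _ => x) = x) ∧
    ∀ (r : Fin k) (x y : A), s.realize (fun p => if r ∈ p.1.1 then y else x) =
      s.realize (fun p => if r ∈ p.1.2 then y else x)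

end Pool.Agent.Lib.MP_71d0e6_al.SD
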