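import Pool.Agent.Lib.MP_71d0e6_al.SD.Star

namespace Pool.Agent.Lib.MP_71d0e6_al.SD

open FirstOrder FirstOrder.Language Finset Filter

universe u v w

variable {A : Type w} {Λ : Type}

lemma per {P R d : ℕ} (hR : P.factorial + 1 ≤ R) (h1 : 1 ≤ d) (h2 : d ≤ P) {J : ℤ → Λ}
    (h : Ag R J (sh d J)) : J 1 = J (1 - (P.factorial : ℕ)) := by
  obtain ⟨m, hm⟩ := Nat.dvd_factorial h1 h2
  have key : ∀ n ≤ m, J (1 - (P.factorial : ℕ) + (d * n : ℕ)) = J (1 - (P.factorial : ℕ)) := by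
    intro n
    induction n with
    | zero => simp
    | succ n ih =>
      intro hn
      have e : d * (n + 1) ≤ d * m := Nat.mul_le_mul_left d hn
      rw [mul_add, mul_one] at e
      rw [← ih (by omega), h (1 - (P.factorial : ℕ) + (d * n : ℕ)) (by omega) (by omega)]
      unfold sh
      congr 1
      push_cast
      ring
  rw [← key m le_rfl, ← hm]
  congr 1
  ring

/-- The window `[-R, R)` of a sequence. -/
def win (R : ℕ) (J : ℤ → Λ) : Fin (2 * R) → Λ := fun i => J ((i : ℕ) - R)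

lemma win_eq {R : ℕ} {J J' : ℤ → Λ} : win R J = win R J' ↔ Ag R J J' := by
  refine ⟨fun h i h1 h2 => ?_, fun h => funext fun i => h _ (by omega) (by omega)⟩
  have := congrFun h ⟨(i + R).toNat, by omega⟩
  simp only [win] at this
  rwa [show (((i + R).toNat : ℕ) : ℤ) - R = i by omega] at this

lemma loc_win (R : ℕ) : Loc (win R : (ℤ → Λ) → _) := Loc.of_rad R fun _ _ h => win_eq.2 h

lemma markers [Fintype Λ] (bad : (ℤ → Λ) → Prop) (hb : Loc bad) (P R : ℕ)
    (h : ∀ J (d : ℕ), bad J → 1 ≤ d → d ≤ P → ¬ Ag R J (sh d J)) :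
    ∃ bs : (ℤ → Λ) → Prop, Loc bs ∧ (∀ J (d : ℕ), 1 ≤ d → d ≤ P → bs J → ¬ bs (sh d J)) ∧
      ∀ J, bad J → ∃ u : ℕ, u ≤ 2 * P ∧ bs (sh (-(u : ℤ)) J) := by
  classical
  have key : ∀ S : Finset (Fin (2 * R) → Λ), ∃ mk : (ℤ → Λ) → Prop, Loc mk ∧
      (∀ J (d : ℕ), 1 ≤ d → d ≤ P → mk J → ¬ mk (sh d J)) ∧
      ∀ J, bad J → win R J ∈ S → ∃ d ∈ Icc (-(P : ℤ)) P, mk (sh d J) := fun S => by
    induction S using Finset.induction_on with
    | empty =>
      exact ⟨fun _ => False, Loc.const _, fun _ _ _ _ h => h.elim, fun _ _ h => by simp at h⟩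
    | insert c S _ ih =>
      obtain ⟨mk, h1, h2, h3⟩ := ih
      refine ⟨fun J => mk J ∨ (bad J ∧ win R J = c ∧ ∀ d ∈ Icc (-(P : ℤ)) P, ¬ mk (sh d J)),
        h1.map₂ (hb.map₂ (((loc_win R).map (· = c)).map₂
          (Loc.ball _ fun d => (h1.shift d).map Not) And) And) Or, ?_, fun J hJ hc => ?_⟩
      · rintro J d hd hd' (e | ⟨e1, e2, e3⟩) (e' | ⟨e1', e2', e3'⟩)
        · exact h2 J d hd hd' e e'
        · refine e3' (-d) (mem_Icc.2 (by omega)) ?_
          rwa [sh_sh, neg_add_cancel, sh_zero]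
        · exact e3 d (mem_Icc.2 (by omega)) e'
        · exact h J d e1 hd hd' (win_eq.1 (e2.trans e2'.symm))
      · by_cases e : ∃ d ∈ Icc (-(P : ℤ)) P, mk (sh d J)
        · obtain ⟨d, hd, e⟩ := e
          exact ⟨d, hd, Or.inl e⟩
        · rcases mem_insert.1 hc with hc | hc
          · refine ⟨0, mem_Icc.2 (by omega), Or.inr ?_⟩
            rw [sh_zero]
            exact ⟨hJ, hc, fun d hd hm => e ⟨d, hd, hm⟩⟩
          · exact absurd (h3 J hJ hc) e
  obtain ⟨mk, h1, h2, h3⟩ := key univ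
  refine ⟨fun J => mk (sh P J), h1.shift _, fun J d hd hd' e e' => h2 _ d hd hd' e ?_,
    fun J hJ => ?_⟩
  · dsimp only at e'
    rwa [sh_sh, add_comm, ← sh_sh] at e'
  · obtain ⟨d, hd, e⟩ := h3 J hJ (mem_univ _)
    have := mem_Icc.1 hd
    refine ⟨(P - d).toNat, by omega, ?_⟩
    dsimp only
    rwa [sh_sh, show (P : ℤ) + -((P - d).toNat : ℕ) = d by omega]

open Classical in
lemma sum_uniq (S : Finset ℕ) (b : ℕ → Prop) (hb : ∀ u ∈ S, ∀ v ∈ S, u < v → b v → ¬ b u) :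
    (∀ (M : Type) [AddCommMonoid M] (ψ : ℕ → M), ∑ u ∈ S, (if b u then ψ u else 0) = 0) ∨
    ∃ u₀ ∈ S, ∀ (M : Type) [AddCommMonoid M] (ψ : ℕ → M),
      ∑ u ∈ S, (if b u then ψ u else 0) = ψ u₀ := by
  by_cases h : ∃ u ∈ S, b u
  · obtain ⟨u₀, h1, h2⟩ := h
    refine Or.inr ⟨u₀, h1, fun M _ ψ => ?_⟩
    rw [sum_eq_single_of_mem u₀ h1, if_pos h2]
    intro u hu hne
    rcases lt_or_gt_of_ne hne with e | e
    · exact if_neg (hb u hu u₀ h1 e h2)
    · exact if_neg fun e' => hb u₀ h1 u hu e e' h2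
  · exact Or.inl fun M _ ψ => sum_eq_zero fun u hu => if_neg fun e => h ⟨u, hu, e⟩

lemma sum_shift (φ : ℕ → ℤ) (N n : ℕ) (h : ∀ v, φ v ≠ 0 → n ≤ v ∧ v < N) :
    ∑ u ∈ range N, φ (n + u) = ∑ u ∈ range N, φ u := by
  have e1 := sum_range_add φ n N
  have e2 := sum_range_add φ N n
  have z1 : ∑ u ∈ range n, φ u = 0 := sum_eq_zero fun u hu => by
    by_contra e
    have := h u e
    have := mem_range.1 hu
    omega
  have z2 : ∑ u ∈ range n, φ (N + u) = 0 := sum_eq_zero fun u hu => by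
    by_contra e
    have := h _ e
    omega
  rw [add_comm n N] at e1
  omega

variable {L : FirstOrder.Language.{u, v}} [L.Structure A] {s : (Λ → A) → A}

lemma assemble [Fintype Λ] [Nonempty Λ] (hc : Clo L s) (hs : Idem s) {k : ℕ}
    (hk : Dr (Drift (Tst s)) k (fun _ => 1)) (c n : ℕ) (B : ℕ → ℕ)
    (BS : ∀ Z : ℕ → ℤ, (∀ u, 0 ≤ Z u ∧ Z u ≤ 2) →
      ∃ (l : ℕ → ℕ → Λ → ℤ) (g : Λ → ℕ → ℤ → ℤ), (∀ u t, l u t ∈ Drift (Tst s)) ∧
        (∀ w i u, g w i u ≠ 0 → 0 ≤ u ∧ u + 2 ^ i < 2 ^ (n + 1)) ∧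
        (∀ w i u, |g w i u| ≤ B i) ∧
        ∀ w (u : ℕ), u < 2 ^ (n + 1) → Z u - ∑ t ∈ range c, l u t w =
          ∑ i ∈ range (n + 1), (g w i u - g w i (u - 2 ^ i))) :
    W' L A (1 + 2 * c + ∑ i ∈ range (n + 1), 2 * (B i + B i)) := by
  classical
  choose! l g hl hg hB hZ using BS
  obtain ⟨P, hP⟩ : ∃ P, 2 ^ n = P + 1 := ⟨2 ^ n - 1, by have := Nat.two_pow_pos n; omega⟩
  have hN : 2 ^ (n + 1) = 2 * P + 2 := by rw [pow_succ]; omega
  obtain ⟨d, hd, hd1⟩ := ZT.pred hs hk (Q := P.factorial) P.factorial_pos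
  obtain ⟨bs, b1, b2, b3⟩ := markers (fun J => d J ≠ 1) ((ZT.loc hd).map (· ≠ 1)) P
    (P.factorial + 1) fun J e h h1 h2 h3 => h (hd1 J (per le_rfl h1 h2 h3))
  let Z : (ℤ → Λ) → ℕ → ℤ := fun J u =>
    if u < 2 * P + 2 ∧ ∀ v ∈ range u, ¬ bs (sh ((u : ℤ) - v) J) then 1 - d (sh u J) else 0
  have Z0 : ∀ J u, 0 ≤ Z J u ∧ Z J u ≤ 2 := fun J u => by
    have := abs_le.1 (Drift.abs_le hd (sh u J))
    simp only [Z]
    split_ifs <;> omega
  have Z1 : Loc Z := by
    have : ∀ u, Loc fun J => Z J u := fun u =>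
      Loc.ite ((Loc.ball (range u) fun v : ℕ => (b1.shift ((u : ℤ) - v)).map Not).map
        fun q => u < 2 * P + 2 ∧ q) (((ZT.loc hd).shift u).map fun x => 1 - x) (Loc.const _)
    refine ((eventually_all_finset (range (2 * P + 2))).2 fun u _ => this u).mono
      fun R hR J J' hJ => funext fun u => ?_
    by_cases h : u < 2 * P + 2
    · exact hR u (mem_range.2 h) J J' hJ
    · simp only [Z, h, false_and, if_false]
  obtain ⟨R, hR1, hR2⟩ := (b1.and Z1).exists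
  have hAg : ∀ J J' : ℤ → Λ, (∀ i < (R : ℤ), J i = J' i) → ∀ u : ℕ,
      Ag R (sh (-(u : ℤ)) J) (sh (-(u : ℤ)) J') := fun J J' h u i _ hi => h _ (by omega)
  let T : ℤ := R + (2 * P + 2 : ℕ)
  have layer : ∀ S : Finset ℕ, (∀ u ∈ S, u < 2 * P + 2) → (∀ u ∈ S, ∀ v ∈ S, v ≤ u + P) →
      Dr (Drift (ZT s)) c (fun J => ∑ u ∈ S, if bs (sh (-(u : ℤ)) J) then
        ∑ t ∈ range c, l (Z (sh (-(u : ℤ)) J)) u t (J (T - u)) else 0) ∧
      ∀ i J, |∑ u ∈ S, (if bs (sh (-(u : ℤ)) J) then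
        g (Z (sh (-(u : ℤ)) J)) (J (T - u)) i u else 0)| ≤ B i := fun S h1 h2 => by
    have hu := fun J => sum_uniq S (fun u => bs (sh (-(u : ℤ)) J)) fun u hu v hv h e e' => by
      have := h2 u hu v hv
      refine b2 _ (v - u) (by omega) (by omega) e ?_
      rwa [sh_sh, show ((v - u : ℕ) : ℤ) + -(v : ℤ) = -u by omega]
    refine ⟨⟨fun t J => (∑ u ∈ S, if bs (sh (-(u : ℤ)) J) then l (Z (sh (-(u : ℤ)) J)) u t else 0)
      (J (T - ∑ u ∈ S, if bs (sh (-(u : ℤ)) J) then (u : ℤ) else 0)), fun t => ?_, fun J => ?_⟩,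
      fun i J => ?_⟩
    · refine ZT.adapt hs _ (fun J => T - ∑ u ∈ S, if bs (sh (-(u : ℤ)) J) then (u : ℤ) else 0)
        R (2 * P + 2) (Loc.sum _ fun u => Loc.ite (b1.shift _)
          ((Z1.shift _).map fun z => l z u t) (Loc.const _))
        ((Loc.sum S fun u : ℕ => Loc.ite (b1.shift (-(u : ℤ))) (Loc.const (u : ℤ))
          (Loc.const 0)).map fun x => T - x) (fun J J' h => ?_) (fun J => ?_) fun J => ?_
      · simp only [fun u => hR1 _ _ (hAg J J' h u), fun u => hR2 _ _ (hAg J J' h u), and_self]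
      · rcases hu J with e | ⟨u, hS, e⟩
        · rw [e]
          simp only [T]
          omega
        · rw [e]
          have := h1 u hS
          simp only [T]
          omega
      · rcases hu J with e | ⟨u, hS, e⟩
        · rw [e]
          exact Tst.zero_mem s
        · rw [e]
          exact hl _ (Z0 _) _ _
    · rcases hu J with e | ⟨u, hS, e⟩
      · simp only [e]
        simp
      · simp only [e]
    · rcases hu J with e | ⟨u, hS, e⟩
      · simp [e]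
      · rw [e]
        exact hB _ (Z0 _) _ _ _
  obtain ⟨l1, g1⟩ := layer (range (P + 1)) (fun u hu => by have := mem_range.1 hu; omega)
    fun u _ v hv => by have := mem_range.1 hv; omega
  obtain ⟨l2, g2⟩ := layer (Ico (P + 1) (2 * P + 2)) (fun u hu => (mem_Ico.1 hu).2)
    fun u hu v hv => by
      have := mem_Ico.1 hu
      have := mem_Ico.1 hv
      omega
  let G : ℕ → (ℤ → Λ) → ℤ := fun i J => ∑ u ∈ range (2 * P + 2), if bs (sh (-(u : ℤ)) J) then
    g (Z (sh (-(u : ℤ)) J)) (J (T - u)) i u else 0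
  have G1 : ∀ i, Dr (Drift (ZT s)) (2 * (B i + B i)) fun J => G i J - G i (sh (-2 ^ i) J) :=
    fun i => ZT.unary hs (G := G i) (Loc.sum _ fun u => Loc.ite (b1.shift _)
      ((Z1.shift _).map₂ (Loc.letter _) fun z w => g z w i u) (Loc.const _)) (fun J => by
        simp only [G]
        rw [← sum_range_add_sum_Ico _ (show P + 1 ≤ 2 * P + 2 by omega)]
        push_cast
        exact (abs_add_le _ _).trans (add_le_add (g1 i J) (g2 i J))) _
  refine ZT.fin hc hs (fun _ => Classical.arbitrary Λ) ?_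
  rw [two_mul c]
  refine (((Dr.one hd).add (l1.add l2)).add
    (Dr.sum (ZT.zero_mem s) _ fun i _ => G1 i)).congr fun J => ?_
  have G2 : ∀ i, G i (sh (-2 ^ i) J) = ∑ u ∈ range (2 * P + 2), if bs (sh (-(u : ℤ)) J) then
      g (Z (sh (-(u : ℤ)) J)) (J (T - u)) i (u - 2 ^ i) else 0 := fun i => by
    rw [← sum_shift _ _ (2 ^ i)]
    · refine sum_congr rfl fun u _ => ?_
      have e1 : sh (-(u : ℤ)) (sh (-2 ^ i) J) = sh (-((2 ^ i + u : ℕ) : ℤ)) J := by
        rw [sh_sh]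
        congr 1
        push_cast
        ring
      have e2 : sh (-2 ^ i) J (T - u) = J (T - ((2 ^ i + u : ℕ) : ℤ)) := by
        unfold sh
        congr 1
        push_cast
        ring
      have e3 : ((2 ^ i + u : ℕ) : ℤ) - 2 ^ i = u := by
        push_cast
        ring
      rw [e1, e2, e3]
    · intro v hv
      split_ifs at hv with h
      · obtain ⟨e1, e2⟩ := hg _ (Z0 _) _ _ _ hv
        have e3 : ((2 ^ i : ℕ) : ℤ) = 2 ^ i := by push_cast; rfl
        have e4 : ((2 ^ (n + 1) : ℕ) : ℤ) = 2 ^ (n + 1) := by push_cast; rfl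
        omega
      · exact absurd rfl hv
  have G3 : ∑ u ∈ range (2 * P + 2), (if bs (sh (-(u : ℤ)) J) then Z (sh (-(u : ℤ)) J) u else 0)
      = 1 - d J := by
    have e : ∀ u : ℕ, Z (sh (-(u : ℤ)) J) u = if u < 2 * P + 2 ∧
        ∀ v ∈ range u, ¬ bs (sh (-(v : ℤ)) J) then 1 - d J else 0 := fun u => by
      simp only [Z, sh_sh, add_neg_cancel, sh_zero,
        fun v : ℕ => show (u : ℤ) - v + -u = -v by ring]
    simp only [e]
    by_cases h : d J = 1
    · simp [h]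
    · have ex : ∃ u : ℕ, bs (sh (-(u : ℤ)) J) := (b3 J h).imp fun _ h => h.2
      obtain ⟨u, hu, hu'⟩ := b3 J h
      have := Nat.find_min' ex hu'
      rw [sum_eq_single_of_mem (Nat.find ex) (mem_range.2 (by omega)), if_pos (Nat.find_spec ex),
        if_pos ⟨by omega, fun v hv => Nat.find_min ex (mem_range.1 hv)⟩]
      intro v _ hv
      split_ifs with h1 h2
      · have := Nat.find_min' ex h1
        exact absurd (Nat.find_spec ex) (h2.2 _ (mem_range.2 (by omega)))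
      · rfl
      · rfl
  simp only [Pi.add_apply, G2, G]
  rw [sum_range_add_sum_Ico _ (show P + 1 ≤ 2 * P + 2 by omega)]
  simp only [← sum_sub_distrib]
  rw [sum_comm, add_assoc, ← sum_add_distrib, eq_comm, ← sub_eq_iff_eq_add', ← G3]
  refine sum_congr rfl fun u hu => ?_
  split_ifs with h
  · rw [← hZ _ (Z0 _) _ u (hN ▸ mem_range.1 hu)]
    ring
  · simp

end Pool.Agent.Lib.MP_71d0e6_al.SD
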