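import Pool.Agent.Lib.MP_71d0e6_al.SD.Basic

namespace Pool.Agent.Lib.MP_71d0e6_al.SD

open FirstOrder FirstOrder.Language Finset

universe u v w

variable {L : FirstOrder.Language.{u, v}}

section Con

variable {B : Type w} [L.Structure B]

lemma IsCon.of_update {θ : Setoid B} (h : ∀ (n : ℕ) (f : L.Functions n) (x : Fin n → B) (i : Fin n)
    (a b : B), θ a b → θ (Structure.funMap f (Function.update x i a))
      (Structure.funMap f (Function.update x i b))) : IsCon L θ := by
  intro n f x y hxy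
  have key : ∀ S : Finset (Fin n),
      θ (Structure.funMap f x) (Structure.funMap f (S.piecewise y x)) := fun S => by
    induction S using Finset.induction_on with
    | empty => rw [piecewise_empty]
    | insert i S hi ih =>
      refine θ.trans ih ?_
      rw [piecewise_insert]
      have := h n f (S.piecewise y x) i _ _ (hxy i)
      rwa [Function.update_eq_self_iff.2 (piecewise_eq_of_notMem _ _ _ hi).symm] at this
  simpa using key univ

lemma IsCon.update {θ : Setoid B} (h : IsCon L θ) {n : ℕ} (f : L.Functions n) (x : Fin n → B)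
    (i : Fin n) {a b : B} (hab : θ a b) : θ (Structure.funMap f (Function.update x i a))
      (Structure.funMap f (Function.update x i b)) :=
  h n f _ _ fun j => by
    by_cases e : j = i
    · subst e
      simpa using hab
    · rw [Function.update_of_ne e, Function.update_of_ne e]

lemma IsCon.sSup {S : Set (Setoid B)} (h : ∀ θ ∈ S, IsCon L θ) : IsCon L (sSup S) := by
  refine IsCon.of_update fun n f x i a b hab => ?_
  rw [Setoid.sSup_eq_eqvGen] at hab ⊢
  induction hab with
  | rel a b hab =>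
    obtain ⟨r, hr, hab⟩ := hab
    exact .rel _ _ ⟨r, hr, (h r hr).update f x i hab⟩
  | refl a => exact .refl _
  | symm a b _ ih => exact .symm _ _ ih
  | trans a b c _ _ ih ih' => exact .trans _ _ _ ih ih'

lemma IsCon.inf {α β : Setoid B} (ha : IsCon L α) (hb : IsCon L β) : IsCon L (α ⊓ β) :=
  fun n f x y h => ⟨ha n f x y fun i => (h i).1, hb n f x y fun i => (h i).2⟩

end Con

variable {A : Type w} [L.Structure A]

/-- The binary operation obtained from `s` and a set of places. -/
def tb {Λ : Type} (s : (Λ → A) → A) (U : Λ → Bool) : A → A → A := fun x y => s (bv U x y)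

open FreeAbelianGroup in
/-- Formal sums of binary terms read off one idempotent term, with their constant drift. -/
def NN (L : FirstOrder.Language.{u, v}) (A : Type w) [L.Structure A] :
    AddSubgroup (FreeAbelianGroup (A → A → A) × ℤ) where
  carrier := {p | ∃ (Λ : Type) (s : (Λ → A) → A) (μ : FreeAbelianGroup (Λ → Bool)),
    Clo L s ∧ Idem s ∧ map (tb s) μ = p.1 ∧ ∀ j, lift (fun U => bi (U j)) μ = p.2}
  zero_mem' := ⟨Unit, fun x => x (), 0, Clo.proj _, fun _ => rfl, map_zero _, fun _ => map_zero _⟩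
  neg_mem' := by
    rintro p ⟨Λ, s, μ, h1, h2, h3, h4⟩
    exact ⟨Λ, s, -μ, h1, h2, by rw [map_neg, h3]; rfl, fun j => by rw [map_neg, h4]; rfl⟩
  add_mem' := by
    rintro p p' ⟨Λ, s, μ, h1, h2, h3, h4⟩ ⟨Λ', s', μ', h1', h2', h3', h4'⟩
    refine ⟨Λ × Λ', fun Y => s fun j => s' fun j' => Y (j, j'),
      map (fun U => U ∘ Prod.fst) μ + map (fun U => U ∘ Prod.snd) μ',
      h1.comp fun _ => h1'.comp fun _ => Clo.proj _, fun x => ?_, ?_, fun j => ?_⟩
    · exact (congrArg s (funext fun _ => h2' x)).trans (h2 x)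
    · rw [map_add, ← map_comp_apply, ← map_comp_apply, Prod.fst_add, ← h3, ← h3']
      congr 3
      · funext U x y
        exact congrArg s (funext fun j => h2' (bv U x y j))
      · funext U x y
        exact h2 (s' (bv U x y))
    · rw [map_add, ← lift_comp, ← lift_comp, Prod.snd_add, ← h4 j.1, ← h4' j.2]
      rfl

open FreeAbelianGroup in
lemma NN.extract (h : ((0, 1) : FreeAbelianGroup (A → A → A) × ℤ) ∈ NN L A) :
    ∃ n, W' L A n := by
  obtain ⟨Λ, s, μ, h1, h2, h3, h4⟩ := h
  let g := Function.invFun (tb s)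
  have hg : ∀ U, Tst s U (g (tb s U)) := fun U x y =>
    (congrFun₂ (Function.apply_invFun_apply (f := tb s) (a := U)) x y).symm
  have key : ∀ μ : FreeAbelianGroup (Λ → Bool), ∃ n, Dr (Drift (Tst s)) n fun j =>
      lift (fun U => bi (U j)) μ - lift (fun b => bi (g b j)) (map (tb s) μ) := fun μ => by
    induction μ using FreeAbelianGroup.induction_on with
    | zero => exact ⟨0, (Dr.zero (Tst.zero_mem s) 0).congr fun _ => by simp⟩
    | of U => exact ⟨1, Dr.one ⟨_, _, hg U, fun _ => by simp⟩⟩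
    | neg U _ =>
      exact ⟨1, Dr.one ⟨_, _, fun x y => (hg U x y).symm, fun _ => by
        simp [add_comm, sub_eq_add_neg]⟩⟩
    | add μ μ' ih ih' =>
      obtain ⟨n, ih⟩ := ih
      obtain ⟨n', ih'⟩ := ih'
      exact ⟨_, (ih.add ih').congr fun _ => by simp only [Pi.add_apply, map_add]; ring⟩
  obtain ⟨n, hn⟩ := key μ
  exact ⟨n, Λ, s, h1, h2, hn.congr fun j => by simp [h3, h4]⟩

/-- The `i`-th singleton. -/
def sing (i : Fin 3) : Fin 3 → Bool := fun j => decide (j = i)

open FreeAbelianGroup in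
lemma exists_br (L : FirstOrder.Language.{u, v}) (A : Type w) [L.Structure A] :
    ∃ (G : Type w) (_ : AddCommGroup G) (br : (A → A → A) → G) (e : G),
      (∀ t : (Fin 3 → A) → A, Clo L t → Idem t →
        br (tb t (sing 0)) + br (tb t (sing 1)) + br (tb t (sing 2)) = e) ∧
      br (fun x _ => x) = 0 ∧ (e = 0 → ∃ n, W' L A n) := by
  let φ := QuotientAddGroup.mk' (NN L A)
  have hφ : ∀ p, φ p = 0 ↔ p ∈ NN L A := fun p => QuotientAddGroup.eq_zero_iff p
  refine ⟨_, inferInstance, fun b => φ (of b, 0), - φ (0, 1), fun t h1 h2 => ?_, ?_,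
    fun h => NN.extract ((hφ _).1 (neg_eq_zero.1 h))⟩
  · rw [eq_neg_iff_add_eq_zero, ← map_add, ← map_add, ← map_add, hφ]
    refine ⟨_, t, of (sing 0) + of (sing 1) + of (sing 2), h1, h2, by simp, fun j => ?_⟩
    fin_cases j <;> simp [sing]
  · exact (hφ _).2 ⟨Unit, fun x => x (), of fun _ => false, Clo.proj _, fun _ => rfl, rfl,
      fun _ => by simp⟩

/-- Ternary term operations. -/
def F3 (L : FirstOrder.Language.{u, v}) (A : Type w) [L.Structure A] : Type w :=
  {f : (Fin 3 → A) → A // Clo L f}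

instance : L.Structure (F3 L A) where
  funMap f x := ⟨fun v => Structure.funMap f fun i => (x i).1 v, by
    choose t ht using fun i => (x i).2
    exact ⟨.func f t, fun v => by simp only [Term.realize_func, ht]⟩⟩
  RelMap _ _ := False

lemma F3.realize {α : Type} (t : L.Term α) (x : α → F3 L A) (v : Fin 3 → A) :
    (t.realize x).1 v = t.realize fun i => (x i).1 v := by
  induction t with
  | var => rfl
  | func f ts ih =>
    simp only [Term.realize_func, ← ih]
    rfl

theorem part_one (h : ∀ (B : Type w) [L.Structure B], InVariety L A B → MeetSD L B) :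
    ∃ n, W' L A n := by
  obtain ⟨G, _, br, e, h1, h2, h3⟩ := exists_br L A
  have hSD := h (F3 L A) fun n t t' ht b => Subtype.ext <| funext fun v => by
    rw [F3.realize, F3.realize, ht]
  let K : Fin 3 → Setoid (F3 L A) := fun i =>
    ⟨fun t t' => (∀ x, t.1 (fun _ => x) = t'.1 fun _ => x) ∧
      (Idem t.1 → br (tb t.1 (sing i)) = br (tb t'.1 (sing i))),
      fun _ => ⟨fun _ => rfl, fun _ => rfl⟩,
      fun h => ⟨fun x => (h.1 x).symm, fun hi => (h.2 fun x => (h.1 x).trans (hi x)).symm⟩,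
      fun h h' => ⟨fun x => (h.1 x).trans (h'.1 x),
        fun hi => (h.2 hi).trans (h'.2 fun x => (h.1 x).symm.trans (hi x))⟩⟩
  let η : Fin 3 → Setoid (F3 L A) := fun i => sSup {θ | IsCon L θ ∧ θ ≤ K i}
  have η1 : ∀ i, IsCon L (η i) := fun i => IsCon.sSup fun _ h => h.1
  have η2 : ∀ i, η i ≤ K i := fun i => sSup_le fun _ h => h.2
  have η3 : ∀ i (t t' : F3 L A), tb t.1 (sing i) = tb t'.1 (sing i) → η i t t' := fun i => by
    have : Setoid.ker (fun t : F3 L A => tb t.1 (sing i)) ≤ η i := by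
      refine le_sSup ⟨fun n f x y h => funext₂ fun a b => ?_, fun t t' h => ⟨fun x => ?_,
        fun _ => congrArg br h⟩⟩
      · exact congrArg (Structure.funMap f) (funext fun j => congrFun₂ (h j) a b)
      · have := congrFun₂ h x x
        simp only [tb] at this
        rwa [show bv (sing i) x x = fun _ => x from funext fun _ => ite_self _] at this
    exact fun t t' h => this h
  have hsum : ∀ t t' : F3 L A, (∀ x, t.1 (fun _ => x) = t'.1 fun _ => x) → Idem t.1 →
      br (tb t.1 (sing 0)) + br (tb t.1 (sing 1)) + br (tb t.1 (sing 2)) =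
      br (tb t'.1 (sing 0)) + br (tb t'.1 (sing 1)) + br (tb t'.1 (sing 2)) := fun t t' h hi =>
    (h1 _ t.2 hi).trans (h1 _ t'.2 fun x => (h x).symm.trans (hi x)).symm
  have e1 : η 0 ⊓ η 1 ≤ η 2 := le_sSup ⟨(η1 0).inf (η1 1), fun t t' h => by
    obtain ⟨a, b⟩ := η2 0 h.1
    obtain ⟨-, c⟩ := η2 1 h.2
    refine ⟨a, fun hi => ?_⟩
    have := hsum t t' a hi
    rw [b hi, c hi] at this
    exact add_left_cancel this⟩
  have e2 : η 0 ⊓ η 2 ≤ η 1 := le_sSup ⟨(η1 0).inf (η1 2), fun t t' h => by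
    obtain ⟨a, b⟩ := η2 0 h.1
    obtain ⟨-, c⟩ := η2 2 h.2
    refine ⟨a, fun hi => ?_⟩
    have := hsum t t' a hi
    rw [b hi, c hi] at this
    exact add_left_cancel (add_right_cancel this)⟩
  have e3 := hSD _ _ _ (η1 0) (η1 1) (η1 2)
    (le_antisymm (le_inf inf_le_left e1) (le_inf inf_le_left e2))
  let z : Fin 3 → F3 L A := fun i => ⟨fun v => v i, Clo.proj i⟩
  have e4 : (η 0 ⊓ (η 1 ⊔ η 2)) (z 1) (z 2) := ⟨η3 0 _ _ rfl, (η 1 ⊔ η 2).trans
    ((le_sup_right : η 2 ≤ η 1 ⊔ η 2) (η3 2 (z 1) (z 0) rfl))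
    ((le_sup_left : η 1 ≤ η 1 ⊔ η 2) (η3 1 (z 0) (z 2) rfl))⟩
  rw [e3] at e4
  have e5 : br (fun _ y => y) = br fun x _ => x := (η2 1 e4.2).2 fun _ => rfl
  have e6 : br (fun _ y => y) + br (fun x _ => x) + br (fun x _ => x) = e :=
    h1 _ (Clo.proj 0) fun _ => rfl
  exact h3 (by rw [← e6, e5, h2]; simp)

end Pool.Agent.Lib.MP_71d0e6_al.SD
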