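import Pool.Agent.Lib.MP_71d0e6_al.SD.Basic

namespace Pool.Agent.Lib.MP_71d0e6_al.SD

open FirstOrder FirstOrder.Language Finset Filter

universe u v w

variable {A : Type w} {Λ : Type}

/-- Shift of a two-sided sequence. -/
def sh (d : ℤ) (J : ℤ → Λ) : ℤ → Λ := fun i => J (i + d)

lemma sh_sh (d e : ℤ) (J : ℤ → Λ) : sh d (sh e J) = sh (d + e) J := by
  funext i
  simp [sh, add_assoc]

@[simp] lemma sh_zero (J : ℤ → Λ) : sh 0 J = J := by
  funext i
  simp [sh]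

/-- Agreement on the window `[-R, R)`. -/
def Ag (R : ℕ) (J J' : ℤ → Λ) : Prop := ∀ i : ℤ, -(R : ℤ) ≤ i → i < R → J i = J' i

lemma Ag.mono {R R' : ℕ} {J J' : ℤ → Λ} (h : Ag R' J J') (hR : R ≤ R') : Ag R J J' :=
  fun i h1 h2 => h i (by omega) (by omega)

lemma Ag.shift {R R' : ℕ} {J J' : ℤ → Λ} (h : Ag R' J J') (d : ℤ) (hR : R + d.natAbs ≤ R') :
    Ag R (sh d J) (sh d J') :=
  fun i h1 h2 => h _ (by omega) (by omega)

/-- Dependence on a finite window only. -/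
def Loc {β : Sort*} (Y : (ℤ → Λ) → β) : Prop :=
  ∀ᶠ R : ℕ in atTop, ∀ J J', Ag R J J' → Y J = Y J'

lemma Loc.of_rad {β : Sort*} {Y : (ℤ → Λ) → β} (R : ℕ) (h : ∀ J J', Ag R J J' → Y J = Y J') :
    Loc Y :=
  (eventually_ge_atTop R).mono fun _ hR J J' hJ => h J J' (hJ.mono hR)

lemma Loc.rad {β : Sort*} {Y : (ℤ → Λ) → β} (h : Loc Y) :
    ∃ R : ℕ, ∀ J J', Ag R J J' → Y J = Y J' := h.exists

lemma Loc.const {β : Sort*} (b : β) : Loc (fun _ : ℤ → Λ => b) :=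
  Loc.of_rad 0 fun _ _ _ => rfl

lemma Loc.letter (i : ℤ) : Loc (fun J : ℤ → Λ => J i) :=
  Loc.of_rad (i.natAbs + 1) fun _ _ h => h i (by omega) (by omega)

lemma Loc.shift {β : Sort*} {Y : (ℤ → Λ) → β} (h : Loc Y) (d : ℤ) :
    Loc (fun J => Y (sh d J)) := by
  obtain ⟨R, hR⟩ := h.rad
  exact Loc.of_rad (R + d.natAbs) fun J J' hJ => hR _ _ (hJ.shift d le_rfl)

lemma Loc.map {β γ : Sort*} {Y : (ℤ → Λ) → β} (h : Loc Y) (g : β → γ) :
    Loc (fun J => g (Y J)) :=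
  h.mono fun _ hR J J' hJ => congrArg g (hR J J' hJ)

lemma Loc.map₂ {β γ ε : Sort*} {Y : (ℤ → Λ) → β} {Y' : (ℤ → Λ) → γ} (h : Loc Y) (h' : Loc Y')
    (g : β → γ → ε) : Loc (fun J => g (Y J) (Y' J)) :=
  (h.and h').mono fun _ hR J J' hJ => congrArg₂ g (hR.1 J J' hJ) (hR.2 J J' hJ)

lemma Loc.pi {ι : Type} [Finite ι] {β : ι → Sort*} {Y : ∀ i, (ℤ → Λ) → β i}
    (h : ∀ i, Loc (Y i)) : Loc (fun J i => Y i J) :=
  (eventually_all.2 h).mono fun _ hR J J' hJ => funext fun i => hR i J J' hJ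

lemma Loc.sum {ι M : Type} [AddCommMonoid M] (S : Finset ι) {Y : ι → (ℤ → Λ) → M}
    (h : ∀ i, Loc (Y i)) : Loc (fun J => ∑ i ∈ S, Y i J) :=
  ((eventually_all_finset S).2 fun i _ => h i).mono fun _ hR J J' hJ =>
    sum_congr rfl fun i hi => hR i hi J J' hJ

lemma Loc.ball {ι : Type} (S : Finset ι) {Y : ι → (ℤ → Λ) → Prop}
    (h : ∀ i, Loc (Y i)) : Loc (fun J => ∀ i ∈ S, Y i J) :=
  ((eventually_all_finset S).2 fun i _ => h i).mono fun _ hR J J' hJ =>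
    propext (forall₂_congr fun i hi => by rw [hR i hi J J' hJ])

lemma Loc.ite {β : Type*} {c : (ℤ → Λ) → Prop} [∀ J, Decidable (c J)] {Y Y' : (ℤ → Λ) → β}
    (hc : Loc c) (h : Loc Y) (h' : Loc Y') : Loc (fun J => if c J then Y J else Y' J) :=
  (hc.and (h.and h')).mono fun _ hR J J' hJ =>
    if_congr (iff_of_eq (hR.1 J J' hJ)) (hR.2.1 J J' hJ) (hR.2.2 J J' hJ)

/-- The `N`-fold star power of `s`, read at the places `a, a + 1, ...` of a sequence. -/
def ev (s : (Λ → A) → A) : ℕ → ℤ → ((ℤ → Λ) → A) → (ℤ → Λ) → A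
  | 0, _, Y, J => Y J
  | N + 1, a, Y, J => s fun j => ev s N (a + 1) Y (Function.update J a j)

variable {s : (Λ → A) → A}

lemma ev_rel (ρ : A → A → Prop) (hs : ∀ x y, (∀ j, ρ (x j) (y j)) → ρ (s x) (s y)) (N : ℕ) :
    ∀ (a : ℤ) (Y Y' : (ℤ → Λ) → A) (J : ℤ → Λ),
      (∀ J', (∀ i < a, J' i = J i) → ρ (Y J') (Y' J')) → ρ (ev s N a Y J) (ev s N a Y' J) := by
  induction N with
  | zero => exact fun a Y Y' J h => h J fun _ _ => rfl
  | succ N ih =>
    intro a Y Y' J h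
    refine hs _ _ fun j => ih _ _ _ _ fun J' hJ' => h J' fun i hi => ?_
    rw [hJ' i (by omega), Function.update_of_ne hi.ne]

lemma ev_congr (N : ℕ) (a : ℤ) (Y Y' : (ℤ → Λ) → A) (J : ℤ → Λ)
    (h : ∀ J', (∀ i < a, J' i = J i) → Y J' = Y' J') : ev s N a Y J = ev s N a Y' J :=
  ev_rel Eq (fun _ _ h => congrArg s (funext h)) N a Y Y' J h

lemma ev_add (N M : ℕ) : ∀ (a : ℤ) (Y : (ℤ → Λ) → A) (J : ℤ → Λ),
    ev s (N + M) a Y J = ev s N a (ev s M (a + N) Y) J := by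
  induction N with
  | zero => intro a Y J; simp [ev]
  | succ N ih =>
    intro a Y J
    rw [Nat.add_right_comm]
    simp only [ev, ih]
    congr 1
    funext j
    congr 2
    push_cast
    ring

lemma ev_indep (hs : Idem s) (N : ℕ) : ∀ (a : ℤ) (Y : (ℤ → Λ) → A),
    (∀ J i j, a ≤ i → i < a + N → Y (Function.update J i j) = Y J) →
    ∀ J, ev s N a Y J = Y J := by
  induction N with
  | zero => exact fun _ _ _ _ => rfl
  | succ N ih =>
    intro a Y h J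
    have h1 := ih (a + 1) Y fun J i j h1 h2 => h J i j (by omega) (by push_cast; omega)
    have h2 : ∀ j, Y (Function.update J a j) = Y J := fun j =>
      h J a j le_rfl (by push_cast; omega)
    simp only [ev, h1, h2]
    exact hs _

lemma ev_dep (S : ℤ → Prop) (Y : (ℤ → Λ) → A)
    (hY : ∀ J J', (∀ i, S i → J i = J' i) → Y J = Y J') (N : ℕ) :
    ∀ (a : ℤ) (J J' : ℤ → Λ), (∀ i, S i → ¬ (a ≤ i ∧ i < a + N) → J i = J' i) →
      ev s N a Y J = ev s N a Y J' := by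
  induction N with
  | zero => exact fun a J J' h => hY J J' fun i hi => h i hi (by omega)
  | succ N ih =>
    intro a J J' h
    refine congrArg s (funext fun j => ih _ _ _ fun i hi hn => ?_)
    by_cases e : i = a
    · subst e
      simp
    · rw [Function.update_of_ne e, Function.update_of_ne e]
      exact h i hi (by push_cast; omega)

lemma ev_win (hs : Idem s) {Y : (ℤ → Λ) → A} {b : ℤ} {M : ℕ}
    (hY : ∀ J J', (∀ i, b ≤ i ∧ i < b + M → J i = J' i) → Y J = Y J') {a : ℤ} {N : ℕ}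
    (h1 : a ≤ b) (h2 : b + M ≤ a + N) (J J' : ℤ → Λ) : ev s N a Y J = ev s M b Y J' := by
  obtain ⟨n, rfl⟩ : ∃ n : ℕ, b = a + n := ⟨(b - a).toNat, by omega⟩
  obtain ⟨m, rfl⟩ : ∃ m : ℕ, N = n + (M + m) := ⟨N - n - M, by omega⟩
  have e1 : ev s m (a + n + M) Y = Y := funext <| ev_indep hs m _ Y fun J i j h1 _ =>
    hY _ _ fun i' hi' => Function.update_of_ne (by omega) _ _
  have e2 : ev s (M + m) (a + n) Y = fun _ => ev s M (a + n) Y J' := funext fun J => by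
    rw [ev_add, e1]
    exact ev_dep _ Y hY M _ _ _ fun i hi hn => absurd hi hn
  rw [ev_add, e2]
  exact ev_indep hs n a _ (fun _ _ _ _ _ => rfl) J

lemma ev_sh (d : ℤ) (Y : (ℤ → Λ) → A) (N : ℕ) : ∀ (a : ℤ) (J : ℤ → Λ),
    ev s N a (fun J => Y (sh d J)) J = ev s N (a - d) Y (sh d J) := by
  induction N with
  | zero => exact fun _ _ => rfl
  | succ N ih =>
    intro a J
    simp only [ev, ih]
    congr 1
    funext j
    congr 1
    · ring
    · funext i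
      simp only [sh, Function.update_apply]
      congr 1
      exact propext (by omega)

/-- Tests of all large star powers. -/
def ZT (s : (Λ → A) → A) (F G : (ℤ → Λ) → Bool) : Prop :=
  Loc F ∧ Loc G ∧ ∀ᶠ R : ℕ in atTop, ∀ x y J,
    ev s (2 * R) (-R) (bv F x y) J = ev s (2 * R) (-R) (bv G x y) J

lemma ZT.zero_mem (s : (Λ → A) → A) : (0 : (ℤ → Λ) → ℤ) ∈ Drift (ZT s) :=
  ⟨fun _ => false, fun _ => false,
    ⟨Loc.const _, Loc.const _, Eventually.of_forall fun _ _ _ _ => rfl⟩, fun _ => by simp⟩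

lemma ZT.loc {d : (ℤ → Λ) → ℤ} (h : d ∈ Drift (ZT s)) : Loc d := by
  obtain ⟨U, V, ⟨h1, h2, -⟩, h⟩ := h
  rw [funext h]
  exact h1.map₂ h2 fun a b => bi a - bi b

lemma ZT.shift (hs : Idem s) {F : (ℤ → Λ) → Bool} (hF : Loc F) (d : ℤ) :
    ZT s F (fun J => F (sh d J)) := by
  refine ⟨hF, hF.shift d, ?_⟩
  obtain ⟨R, hR⟩ := hF.rad
  filter_upwards [eventually_ge_atTop (R + d.natAbs)] with R' hR' x y J
  have hY : ∀ J J' : ℤ → Λ, (∀ i, -(R : ℤ) ≤ i ∧ i < -(R : ℤ) + (2 * R : ℕ) → J i = J' i) →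
      bv F x y J = bv F x y J' := fun J J' h => by
    simp only [bv, hR J J' fun i h1 h2 => h i ⟨h1, by omega⟩]
  have e : bv (fun J => F (sh d J)) x y = fun J => bv F x y (sh d J) := rfl
  rw [e, ev_sh, ev_win hs hY (by omega) (by omega) J J,
    ev_win hs hY (by omega) (by omega) (sh d J) J]

lemma ZT.adapt (hs : Idem s) (δ : (ℤ → Λ) → Λ → ℤ) (p : (ℤ → Λ) → ℤ) (b : ℤ) (M : ℕ)
    (hδ : Loc δ) (hp : Loc p)
    (hc : ∀ J J' : ℤ → Λ, (∀ i < b, J i = J' i) → δ J = δ J' ∧ p J = p J')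
    (hb : ∀ J, b ≤ p J ∧ p J ≤ b + M) (hD : ∀ J, δ J ∈ Drift (Tst s)) :
    (fun J => δ J (J (p J))) ∈ Drift (ZT s) := by
  have : ∀ d : Λ → ℤ, ∃ U V : Λ → Bool, d ∈ Drift (Tst s) →
      Tst s U V ∧ ∀ x, d x = bi (U x) - bi (V x) := fun d => by
    by_cases h : d ∈ Drift (Tst s)
    · obtain ⟨U, V, h⟩ := h
      exact ⟨U, V, fun _ => h⟩
    · exact ⟨fun _ => false, fun _ => false, fun h' => absurd h' h⟩
  choose U V hUV using this
  have hl : Loc (fun J => J (p J)) := by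
    filter_upwards [hp, eventually_ge_atTop (b.natAbs + M + 1)] with R h1 h2 J J' hJ
    rw [← h1 J J' hJ]
    have := hb J
    exact hJ _ (by omega) (by omega)
  refine ⟨fun J => U (δ J) (J (p J)), fun J => V (δ J) (J (p J)),
    ⟨hδ.map₂ hl U, hδ.map₂ hl V, ?_⟩, fun J => (hUV _ (hD J)).2 _⟩
  filter_upwards [eventually_ge_atTop (b.natAbs + M + 1)] with R hR x y J
  obtain ⟨n, hn⟩ : ∃ n : ℕ, b = -(R : ℤ) + n := ⟨(b + R).toNat, by omega⟩
  obtain ⟨m, hm⟩ : ∃ m : ℕ, 2 * R = n + m := ⟨2 * R - n, by omega⟩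
  have key : ∀ (U : (Λ → ℤ) → Λ → Bool) (J : ℤ → Λ),
      ev s m b (bv (fun J => U (δ J) (J (p J))) x y) J = s (bv (U (δ J)) x y) := fun U J => by
    rw [ev_congr m b _ (fun J' => bv (U (δ J)) x y (J' (p J))) J fun J' hJ' => by
      simp only [bv, (hc J' J hJ').1, (hc J' J hJ').2] ]
    have := hb J
    rw [ev_win hs (b := p J) (M := 1) (fun J1 J2 h => by rw [h (p J) (by omega)])
      (by omega) (by omega) J J]
    simp [ev]
  rw [hm, ev_add, ev_add, ← hn]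
  congr 1
  funext J
  rw [key, key]
  exact (hUV _ (hD J)).1 x y

lemma sum_unary (g : ℤ) (n : ℕ) :
    ∑ t ∈ range n, bi (decide ((t : ℤ) < g)) = max 0 (min g n) := by
  induction n with
  | zero => simp
  | succ n ih =>
    rw [sum_range_succ, ih]
    by_cases h : (n : ℤ) < g
    · simp only [h, decide_true, bi_true]
      push_cast
      omega
    · simp only [h, decide_false, bi_false]
      push_cast
      omega

lemma ZT.unary (hs : Idem s) {G : (ℤ → Λ) → ℤ} (hG : Loc G) {M : ℕ} (hM : ∀ J, |G J| ≤ M)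
    (d : ℤ) : Dr (Drift (ZT s)) (2 * M) (fun J => G J - G (sh d J)) := by
  refine ⟨fun t J => bi (decide ((t : ℤ) < G J + M)) - bi (decide ((t : ℤ) < G (sh d J) + M)),
    fun t => ⟨_, _, ZT.shift hs (hG.map fun g => decide ((t : ℤ) < g + M)) d, fun _ => rfl⟩,
    fun J => ?_⟩
  rw [sum_sub_distrib, sum_unary, sum_unary]
  have h1 := abs_le.1 (hM J)
  have h2 := abs_le.1 (hM (sh d J))
  push_cast
  omega

/-- The prediction test. -/
lemma ZT.pred (hs : Idem s) {k : ℕ} (h : Dr (Drift (Tst s)) k (fun _ => 1)) {Q : ℕ}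
    (hQ : 1 ≤ Q) : ∃ d ∈ Drift (ZT s), ∀ J : ℤ → Λ, J 1 = J (1 - Q) → d J = 1 := by
  obtain ⟨l, hl, hf⟩ := h
  have : ∀ j, ∃ t, l t j = 1 := fun j => by
    by_contra hn
    push Not at hn
    have : ∑ t ∈ range k, l t j ≤ 0 := sum_nonpos fun t _ => by
      have := abs_le.1 (Drift.abs_le (hl t) j)
      have := hn t
      omega
    have : _ = (1 : ℤ) := hf j
    omega
  choose r hr using this
  refine ⟨_, ZT.adapt hs (fun J => l (r (J (1 - Q)))) (fun _ => 1) 1 0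
    ((Loc.letter _).map fun j => l (r j)) (Loc.const _)
    (fun J J' h => ⟨by rw [h _ (by omega)], rfl⟩) (fun _ => by simp) (fun J => hl _),
    fun J hJ => ?_⟩
  simp only [hJ, hr]

lemma ev_clo {L : FirstOrder.Language.{u, v}} [L.Structure A] (hs : Clo L s) (N : ℕ) :
    ∀ (a : ℤ) (J : ℤ → Λ), Clo L (fun Y => ev s N a Y J) := by
  induction N with
  | zero => exact fun _ J => Clo.proj J
  | succ N ih => exact fun a J => hs.comp fun j => ih _ _

lemma ZT.fin {L : FirstOrder.Language.{u, v}} [L.Structure A] (hc : Clo L s) (hs : Idem s)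
    (J : ℤ → Λ) {n : ℕ} (h : Dr (Drift (ZT s)) n (fun _ => 1)) : W' L A n := by
  obtain ⟨U, V, hT, hd⟩ := h.tests
  obtain ⟨R, hR⟩ := ((eventually_all_finset (range n)).2 fun t _ => (hT t).2.2).exists
  refine ⟨ℤ → Λ, fun Y => ev s (2 * R) (-R) Y J, ev_clo hc _ _ _,
    fun x => ev_indep hs _ _ _ (fun _ _ _ _ _ => rfl) J, ?_⟩
  have := Dr.sum (Tst.zero_mem fun Y => ev s (2 * R) (-R) Y J) (range n) (n := fun _ => 1)
    (f := fun t J => bi (U t J) - bi (V t J))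
    fun t ht => Dr.one ⟨U t, V t, fun x y => hR t ht x y J, fun _ => rfl⟩
  simpa using this.congr hd

end Pool.Agent.Lib.MP_71d0e6_al.SD
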