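import Pool.Agent.Lib.MP_71d0e6_al.SD.Mark
import Pool.Agent.Lib.MP_71d0e6_al.SD.Box
import Pool.Agent.Lib.MP_71d0e6_al.SD.Amp

namespace Pool.Agent.Lib.MP_71d0e6_al.SD

open FirstOrder FirstOrder.Language Finset

universe u v w

variable {A : Type w} {Λ : Type}

lemma supply {D : Set (Λ → ℤ)} (h0 : (0 : Λ → ℤ) ∈ D) {k K E N : ℕ} (hk : Dr D k fun _ => 1)
    (hK : Dr D K fun _ => E) (h1 : 1600 * K ≤ k * E) (h2 : 0 < E) (h3 : 2 * k * E ≤ N)
    (T : ℕ) (hT : T ≤ 2 * N) : Dr D ((k / 800 + 2) * N) fun _ => T := by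
  refine (((hK.nsmul h0 (T / E)).add (hk.nsmul h0 (T % E))).congr fun _ => ?_).mono h0 ?_
  · have := Nat.div_add_mod' T E
    simp only [Pi.add_apply, mul_one]
    exact_mod_cast this
  · have e1 : T / E * E ≤ T := Nat.div_mul_le_self T E
    have e2 : T % E < E := Nat.mod_lt _ h2
    have e3 : 2 * k + 800 ≤ 1600 * (k / 800 + 2) := by omega
    have e4 : 1600 * (T / E * K) ≤ 2 * k * N :=
      calc 1600 * (T / E * K) = T / E * (1600 * K) := by ring
        _ ≤ T / E * (k * E) := Nat.mul_le_mul_left _ h1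
        _ = k * (T / E * E) := by ring
        _ ≤ k * (2 * N) := Nat.mul_le_mul_left _ (e1.trans hT)
        _ = _ := by ring
    have e5 : 2 * (T % E * k) ≤ N :=
      calc 2 * (T % E * k) = 2 * k * (T % E) := by ring
        _ ≤ 2 * k * E := Nat.mul_le_mul_left _ e2.le
        _ ≤ N := h3
    have e6 : (2 * k + 800) * N ≤ 1600 * (k / 800 + 2) * N := Nat.mul_le_mul_right _ e3
    rw [add_mul, mul_assoc 1600] at e6
    omega

/-- The imbalance allowed at level `i`. -/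
noncomputable def imb (c : ℕ) (η : ℝ) (i : ℕ) : ℝ :=
  if i < 50 then 2 * (c * 2 ^ i : ℕ)
  else η / (2 / 3) ^ (i - 50) + 2 * (2 / 3) ^ (i - 50) * (c * 2 ^ i : ℕ)

lemma imb_nonneg (c : ℕ) {η : ℝ} (hη : 0 ≤ η) (i : ℕ) : 0 ≤ imb c η i := by
  unfold imb
  split_ifs <;> positivity

lemma geo {r : ℝ} (h0 : 0 ≤ r) (h1 : r < 1) (n : ℕ) : ∑ j ∈ range n, r ^ j ≤ (1 - r)⁻¹ := by
  rw [← tsum_geometric_of_lt_one h0 h1]
  exact (summable_geometric_of_lt_one h0 h1).sum_le_tsum _ fun _ _ => by positivity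

lemma sum_imb (c : ℕ) {η : ℝ} (hη : 0 ≤ η) (n : ℕ) :
    ∑ i ∈ range n, (4 * 2 ^ i + imb c η i + n) / 2 ^ (i + 1) ≤ 3 * n + 53 * c + η / 2 ^ 49 := by
  have e1 : ∀ i, (4 * 2 ^ i + imb c η i + n) / 2 ^ (i + 1) =
      2 + n / 2 * (1 / 2) ^ i + imb c η i / 2 ^ (i + 1) := fun i => by
    rw [one_div, inv_pow]
    field_simp
    ring
  have e2 : ∑ i ∈ range n, imb c η i / 2 ^ (i + 1) ≤
      ∑ i ∈ range (50 + n), imb c η i / 2 ^ (i + 1) :=
    sum_le_sum_of_subset_of_nonneg (range_subset_range.2 (by omega)) fun i _ _ => by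
      have := imb_nonneg c hη i
      positivity
  have e3 : ∑ i ∈ range 50, imb c η i / 2 ^ (i + 1) = 50 * c := by
    rw [sum_congr rfl (g := fun _ => (c : ℝ)) fun i hi => by
      rw [imb, if_pos (mem_range.1 hi)]
      push_cast
      field_simp
      ring]
    simp
  have e4 : ∀ j, imb c η (50 + j) / 2 ^ (50 + j + 1) =
      η / 2 ^ 51 * (3 / 4) ^ j + c * (2 / 3) ^ j := fun j => by
    have e : (3 / 4 : ℝ) ^ j = ((2 / 3) ^ j * 2 ^ j)⁻¹ := by
      rw [← mul_pow, ← inv_pow]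
      norm_num
    rw [imb, if_neg (by omega), Nat.add_sub_cancel_left, e]
    push_cast
    field_simp
    ring
  rw [sum_range_add, e3] at e2
  simp only [e4, sum_add_distrib, ← mul_sum] at e2
  simp only [e1, sum_add_distrib, ← mul_sum, sum_const, card_range, nsmul_eq_mul]
  have g1 := geo (r := 1 / 2) (by norm_num) (by norm_num) n
  have g2 := geo (r := 3 / 4) (by norm_num) (by norm_num) n
  have g3 := geo (r := 2 / 3) (by norm_num) (by norm_num) n
  have g4 := mul_le_mul_of_nonneg_left g1 (show (0 : ℝ) ≤ n / 2 by positivity)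
  have g5 := mul_le_mul_of_nonneg_left g2 (show (0 : ℝ) ≤ η / 2 ^ 51 by positivity)
  have g6 := mul_le_mul_of_nonneg_left g3 (show (0 : ℝ) ≤ c by positivity)
  norm_num at g4 g5 g6 e2 ⊢
  linarith

lemma lin_le_pow (j : ℕ) : j + 62 ≤ 2 ^ (j + 10) := by
  have := Nat.lt_two_pow_self (n := j)
  rw [pow_add]
  omega

lemma nums {k q : ℕ} (hk : 2 ^ 60 ≤ k) (hq : q ≤ 2 ^ 39) :
    ∃ n, (2 * k) ^ (q + 1) ≤ 2 ^ (n + 1) ∧ 1024 * (n + 1) ≤ k := by
  obtain ⟨j, hj⟩ := Nat.exists_eq_add_of_le' (Nat.le_log_of_pow_le Nat.one_lt_two hk)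
  have j1 : 2 ^ (j + 60) ≤ k := hj ▸ Nat.pow_log_le_self 2 (by omega)
  have j2 : k < 2 ^ (j + 60 + 1) := hj ▸ Nat.lt_pow_succ_log_self Nat.one_lt_two k
  have j3 : 2 * k ≤ 2 ^ (j + 62) :=
    calc 2 * k ≤ 2 * 2 ^ (j + 60 + 1) := Nat.mul_le_mul_left _ j2.le
      _ = _ := by ring
  obtain ⟨n, hn⟩ := Nat.exists_eq_add_one_of_ne_zero
    (Nat.mul_ne_zero (show j + 62 ≠ 0 from Nat.succ_ne_zero _) q.succ_ne_zero)
  have j5 : (2 * k) ^ (q + 1) ≤ (2 ^ (j + 62)) ^ (q + 1) := Nat.pow_le_pow_left j3 (q + 1)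
  rw [← pow_mul, hn] at j5
  refine ⟨n, j5, ?_⟩
  have j4 : q + 1 ≤ 2 ^ 40 := by omega
  calc 1024 * (n + 1) = 1024 * ((j + 62) * (q + 1)) := by rw [hn]
    _ ≤ 1024 * (2 ^ (j + 10) * 2 ^ 40) := Nat.mul_le_mul_left _ (Nat.mul_le_mul (lin_le_pow j) j4)
    _ = 2 ^ (j + 60) := by ring
    _ ≤ k := j1

variable {L : FirstOrder.Language.{u, v}} [L.Structure A]

lemma step {k : ℕ} (hk : 2 ^ 60 ≤ k) (h : W L A k) : W' L A (k - 1) := by
  obtain ⟨Λ, _, _, s, q, K, E, h1, h2, hq, h3, h4, h5, h6, h7, h8⟩ := amp (by omega) h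
  obtain ⟨n, n0, n2⟩ := nums hk hq
  have n1 : 2 * k * E ≤ 2 ^ (n + 1) :=
    calc 2 * k * E ≤ 2 * k * (2 * k) ^ q := Nat.mul_le_mul_left _ h8
      _ = (2 * k) ^ (q + 1) := by ring
      _ ≤ _ := n0
  set c := k / 800 + 2 with hc
  set η : ℝ := 2 * (k * q : ℕ) + 1 with hη
  have η0 : 0 ≤ η := by positivity
  have η1 : 2 * (Fintype.card Λ : ℝ) ≤ Real.exp η := by
    have e1 : (2 : ℝ) ≤ Real.exp 1 := by have := Real.add_one_le_exp 1; linarith
    have e2 : (4 : ℝ) ≤ Real.exp 2 := by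
      rw [show (2 : ℝ) = 1 + 1 by norm_num, Real.exp_add]
      nlinarith
    have e3 : (Fintype.card Λ : ℝ) ≤ 4 ^ (k * q) := by exact_mod_cast h3
    rw [hη, Real.exp_add, mul_comm (2 : ℝ) (k * q : ℕ), Real.exp_nat_mul, mul_comm]
    exact mul_le_mul (e3.trans (pow_le_pow_left₀ (by norm_num) e2 _)) e1 (by norm_num)
      (by positivity)
  have hS : ∀ i, Spl (Drift (Tst s)) (c * 2 ^ i) (imb c η i) := fun i => by
    unfold imb
    split_ifs
    · exact spl_triv (fun d hd => Drift.abs_le hd) _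
    · exact spl_cosh (fun d hd => Drift.abs_le hd) _ (by positivity) η1
  refine (assemble h1 h2 h4 c n
    (fun i => ⌊(4 * 2 ^ i + imb c η i + (n + 1 : ℕ)) / 2 ^ (i + 1)⌋₊) fun Z hZ => ?_).mono ?_
  · have hΦ : ∀ a q : ℕ, 0 ≤ ∑ u ∈ range (a + q), Z u - ∑ u ∈ range a, Z u ∧
        ∑ u ∈ range (a + q), Z u - ∑ u ∈ range a, Z u ≤ 2 * q := fun a q => by
      rw [sum_range_add, add_sub_cancel_left]
      refine ⟨sum_nonneg fun _ _ => (hZ _).1, (sum_le_card_nsmul _ _ 2 fun _ _ => (hZ _).2).trans ?_⟩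
      simp [mul_comm]
    obtain ⟨T, hT⟩ := Int.eq_ofNat_of_zero_le (hΦ 0 (2 ^ (n + 1))).1
    have hT' : T ≤ 2 * 2 ^ (n + 1) := by
      have := (hΦ 0 (2 ^ (n + 1))).2
      omega
    obtain ⟨asg, g, a1, a2, a3, a4⟩ := box c (imb c η) (imb_nonneg c η0) hS (n + 1) 0 _
      (fun _ x => ∑ u ∈ range x, Z u) (supply (Tst.zero_mem s) h4 h5 h6 h7 n1 T hT')
      (fun _ a b q => by
        have := hΦ a q
        have := hΦ b q
        rw [abs_le]
        push_cast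
        omega)
      (fun _ => by rw [← hT, zero_add])
    choose l hl hs using a1
    refine ⟨l, g, hl, a2, fun w i u => ?_, fun w u hu => ?_⟩
    · rw [← Int.natCast_natAbs, Nat.cast_le]
      refine Nat.le_floor ((le_div_iff₀ (by positivity)).2 ?_)
      have := a3 w i u
      rwa [← Int.natCast_natAbs, Int.cast_natCast, Nat.cast_zero, zero_add] at this
    · rw [← a4 w u hu, hs, sum_range_succ, add_sub_cancel_left]
  · have e1 := sum_imb c η0 (n + 1)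
    have e2 : ((∑ i ∈ range (n + 1),
        ⌊(4 * 2 ^ i + imb c η i + (n + 1 : ℕ)) / 2 ^ (i + 1)⌋₊ : ℕ) : ℝ) ≤
        3 * (n + 1 : ℕ) + 53 * c + η / 2 ^ 49 := by
      rw [Nat.cast_sum]
      refine (sum_le_sum fun i _ => Nat.floor_le ?_).trans e1
      have := imb_nonneg c η0 i
      positivity
    have e3 : η / 2 ^ 49 ≤ (k / 512 + 2 : ℕ) := by
      have f1 : k * q ≤ k * 2 ^ 39 := Nat.mul_le_mul_left _ hq
      have f2 : 2 * (k * q) + 1 ≤ (k / 512 + 2) * 2 ^ 49 := by omega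
      rw [div_le_iff₀ (by positivity), hη]
      exact_mod_cast f2
    have e4 : ∑ i ∈ range (n + 1), ⌊(4 * 2 ^ i + imb c η i + (n + 1 : ℕ)) / 2 ^ (i + 1)⌋₊ ≤
        3 * (n + 1) + 53 * c + (k / 512 + 2) := by
      have := e2.trans (add_le_add_right e3 _)
      exact_mod_cast this
    simp only [← two_mul, ← mul_sum]
    omega

lemma descent {k : ℕ} (hk : 2 ^ 60 ≤ k) (n : ℕ) : W' L A n → W L A k := by
  induction n with
  | zero => exact fun h => (h.mono (Nat.zero_le k)).toW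
  | succ n ih =>
    intro h
    by_cases e : n + 1 ≤ k
    · exact (h.mono e).toW
    · exact ih (step (by omega) h.toW)

end Pool.Agent.Lib.MP_71d0e6_al.SD
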