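import Pool.Agent.Lib.MP_71d0e6_al.SD.Mark

namespace Pool.Agent.Lib.MP_71d0e6_al.SD

open FirstOrder FirstOrder.Language Finset Filter

universe u v w

variable {B : Type w}

/-- `f` preserves the equivalence relation `θ`. -/
def Pres (θ : Setoid B) {X : Type} (f : (X → B) → B) : Prop :=
  ∀ x y, (∀ j, θ (x j) (y j)) → θ (f x) (f y)

lemma Clo.pres {L : FirstOrder.Language.{u, v}} [L.Structure B] {X : Type} {f : (X → B) → B}
    (hf : Clo L f) {θ : Setoid B} (hθ : IsCon L θ) : Pres θ f := by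
  obtain ⟨t, ht⟩ := hf
  intro x y h
  rw [← ht, ← ht]
  clear ht
  induction t with
  | var j => exact h j
  | func g ts ih => exact hθ _ g _ _ ih

/-- The data of a possible failure of meet-semidistributivity. -/
structure Ctx (α β γ : Setoid B) (a b : B) : Prop where
  eq : α ⊓ β = α ⊓ γ
  ha : α a b
  hb : (β ⊔ γ) a b

/-- `f` preserves all three relations. -/
def Pres3 (α β γ : Setoid B) {X : Type} (f : (X → B) → B) : Prop :=
  Pres α f ∧ Pres β f ∧ Pres γ f

open Classical in
/-- The value of `f` at `b` on `Y` and `a` elsewhere. -/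
noncomputable def fb {X : Type} (f : (X → B) → B) (a b : B) (Y : Finset X) : B :=
  f fun x => if x ∈ Y then b else a

variable {α β γ : Setoid B} {a b : B} {X : Type} {f : (X → B) → B}

lemma Ctx.unary (C : Ctx α β γ a b) (φ ψ : B → B) (h : ∀ c, α (φ c) (ψ c))
    (h1 : ∀ c c', β c c' → β (φ c) (φ c') ∧ β (ψ c) (ψ c'))
    (h2 : ∀ c c', γ c c' → γ (φ c) (φ c') ∧ γ (ψ c) (ψ c')) :
    β (φ a) (ψ a) ↔ β (φ b) (ψ b) := by
  have e : ∀ c, β (φ c) (ψ c) ↔ γ (φ c) (ψ c) := fun c =>
    ⟨fun h' => (C.eq.le (show (α ⊓ β) _ _ from ⟨h c, h'⟩)).2,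
      fun h' => (C.eq.ge (show (α ⊓ γ) _ _ from ⟨h c, h'⟩)).2⟩
  have hb := C.hb
  rw [Setoid.sup_eq_eqvGen] at hb
  clear C
  induction hb with
  | rel c c' hc =>
    rcases hc with hc | hc
    · obtain ⟨p, q⟩ := h1 c c' hc
      exact ⟨fun r => β.trans (β.symm p) (β.trans r q), fun r => β.trans p (β.trans r (β.symm q))⟩
    · obtain ⟨p, q⟩ := h2 c c' hc
      rw [e, e]
      exact ⟨fun r => γ.trans (γ.symm p) (γ.trans r q), fun r => γ.trans p (γ.trans r (γ.symm q))⟩
  | refl c => rfl
  | symm c c' _ ih => exact ih.symm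
  | trans c c' c'' _ _ ih ih' => exact ih.trans ih'

lemma Ctx.tc [DecidableEq X] (C : Ctx α β γ a b) (hf : Pres3 α β γ f) {Y Y' F : Finset X}
    (h : Disjoint F Y) (h' : Disjoint F Y') :
    β (fb f a b Y) (fb f a b Y') ↔ β (fb f a b (Y ∪ F)) (fb f a b (Y' ∪ F)) := by
  have e1 : ∀ Y, Disjoint F Y → fb f a b Y =
      f fun x => if x ∈ F then a else if x ∈ Y then b else a := fun Y h => by
    refine congrArg f (funext fun x => ?_)
    by_cases hx : x ∈ F
    · simp [hx, disjoint_left.1 h hx]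
    · simp [hx]
  have e2 : ∀ Y, fb f a b (Y ∪ F) =
      f fun x => if x ∈ F then b else if x ∈ Y then b else a := fun Y => by
    refine congrArg f (funext fun x => ?_)
    by_cases hx : x ∈ F <;> simp [hx]
  have e3 : ∀ θ : Setoid B, Pres θ f → ∀ (Y : Finset X) c c', θ c c' →
      θ (f fun x => if x ∈ F then c else if x ∈ Y then b else a)
        (f fun x => if x ∈ F then c' else if x ∈ Y then b else a) := fun θ hθ Y c c' hc =>
    hθ _ _ fun x => by
      split_ifs
      exacts [hc, θ.refl _, θ.refl _]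
  rw [e1 Y h, e1 Y' h', e2, e2]
  refine C.unary (fun c => f fun x => if x ∈ F then c else if x ∈ Y then b else a)
    (fun c => f fun x => if x ∈ F then c else if x ∈ Y' then b else a)
    (fun c => hf.1 _ _ fun x => ?_) (fun c c' hc => ⟨e3 _ hf.2.1 _ _ _ hc, e3 _ hf.2.1 _ _ _ hc⟩)
    fun c c' hc => ⟨e3 _ hf.2.2 _ _ _ hc, e3 _ hf.2.2 _ _ _ hc⟩
  split_ifs
  exacts [α.refl _, α.refl _, α.symm C.ha, C.ha, α.refl _]

lemma Ctx.moves [DecidableEq X] {Λ : Type} [DecidableEq Λ] (C : Ctx α β γ a b)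
    (hf : Pres3 α β γ f) (col : X → Λ)
    (h : ∀ x x', col x = col x' → β (fb f a b {x}) (fb f a b {x'})) (Y : Finset X) :
    ∀ Y' : Finset X, (∀ j, ∑ x ∈ Y, (if col x = j then 1 else 0 : ℤ) =
      ∑ x ∈ Y', if col x = j then 1 else 0) → β (fb f a b Y) (fb f a b Y') := by
  induction Y using Finset.induction_on with
  | empty =>
    intro Y' hY
    obtain rfl : Y' = ∅ := eq_empty_of_forall_notMem fun x hx => by
      have := hY (col x)
      rw [sum_empty, eq_comm, sum_eq_zero_iff_of_nonneg fun _ _ => by split_ifs <;> simp] at this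
      simpa using this x hx
    exact β.refl _
  | insert x Y hx ih =>
    intro Y' hY
    have key : ∀ x' ∈ Y', col x' = col x → β (fb f a b Y) (fb f a b (Y'.erase x')) :=
      fun x' hx' e => ih _ fun j => by
        have := hY j
        rw [sum_insert hx, ← add_sum_erase _ _ hx', e] at this
        exact add_left_cancel this
    have e : insert x Y = Y ∪ {x} := by rw [union_comm]; rfl
    by_cases hx' : x ∈ Y'
    · have := (C.tc hf (F := {x}) (by simpa) (by simp)).1 (key x hx' rfl)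
      rwa [← e, union_comm, ← insert_eq, insert_erase hx'] at this
    · obtain ⟨x', h1, h2⟩ : ∃ x' ∈ Y', col x' = col x := by
        by_contra hn
        have := hY (col x)
        rw [sum_insert hx, if_pos rfl, sum_eq_zero (s := Y') fun y hy =>
          if_neg fun e => hn ⟨y, hy, e⟩] at this
        have : 0 ≤ ∑ y ∈ Y, (if col y = col x then 1 else 0 : ℤ) :=
          sum_nonneg fun _ _ => by split_ifs <;> simp
        omega
      have e1 := (C.tc hf (F := {x}) (by simpa) (by simp [hx'])).1 (key x' h1 h2)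
      have e2 := (C.tc hf (F := Y'.erase x') (by simp [hx']) (by simp)).1 (h x x' h2.symm)
      rw [← insert_eq x', insert_erase h1, union_comm] at e2
      rw [e]
      exact β.trans e1 e2

lemma Ctx.null [DecidableEq X] (C : Ctx α β γ a b) (hf : Pres3 α β γ f) (Y T : Finset X)
    (h : ∀ x ∈ T, β (fb f a b {x}) (fb f a b ∅)) (hd : Disjoint T Y) :
    β (fb f a b (Y ∪ T)) (fb f a b Y) := by
  induction T using Finset.induction_on with
  | empty => rw [union_empty]
  | insert x T hx ih =>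
    rw [disjoint_insert_left] at hd
    have := (C.tc hf (F := Y ∪ T) (by simp [hx, hd.1]) (by simp)).1 (h x (mem_insert_self _ _))
    rw [empty_union, ← insert_eq, ← union_insert] at this
    exact β.trans this (ih (fun y hy => h y (mem_insert_of_mem hy)) hd.2)

variable {Λ : Type} {s : (Λ → B) → B}

lemma Pres3.ev (hs : Pres3 α β γ s) (N : ℕ) (p : ℤ) (J₀ : ℤ → Λ)
    (g : (ℤ → Λ) → (X → B) → B) (hg : ∀ J, Pres3 α β γ (g J)) :
    Pres3 α β γ fun y => ev s N p (fun J => g J y) J₀ :=
  ⟨fun _ _ h => ev_rel _ hs.1 _ _ _ _ _ fun J _ => (hg J).1 _ _ h,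
    fun _ _ h => ev_rel _ hs.2.1 _ _ _ _ _ fun J _ => (hg J).2.1 _ _ h,
    fun _ _ h => ev_rel _ hs.2.2 _ _ _ _ _ fun J _ => (hg J).2.2 _ _ h⟩

lemma Ctx.cyl [Fintype Λ] (C : Ctx α β γ a b) (hs : Pres3 α β γ s) (hi : Idem s) {k : ℕ}
    (hk : Dr (Drift (Tst s)) k fun _ => 1) (E : (ℤ → Λ) → Bool)
    (hE : ∀ J (d : ℕ), 1 ≤ d → d ≤ k → E J = true → E (sh d J) = false) (N : ℕ) (p : ℤ)
    (J₀ : ℤ → Λ) (hsh : ∀ (i : Fin (k + 1)) (c : B), ev s N p (bv E a c) J₀ =
      ev s N p (bv (fun J => E (sh (i : ℕ) J)) a c) J₀) :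
    β (ev s N p (bv E a b) J₀) a := by
  classical
  obtain ⟨U, V, hT, hd⟩ := hk.tests
  have uniq : ∀ J (i i' : Fin (k + 1)), E (sh (i : ℕ) J) = true → E (sh (i' : ℕ) J) = true →
      i = i' := fun J i i' h h' => by
    have key : ∀ i i' : Fin (k + 1), E (sh (i : ℕ) J) = true → E (sh (i' : ℕ) J) = true →
        ¬ (i : ℕ) < i' := fun i i' h h' hlt => by
      have := hE _ (i' - i) (by omega) (by omega) h
      rw [sh_sh, show (((i' : ℕ) - i : ℕ) : ℤ) + (i : ℕ) = (i' : ℕ) by omega, h'] at this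
      exact Bool.noConfusion this
    have := key i i' h h'
    have := key i' i h' h
    exact Fin.ext (by omega)
  let g : (ℤ → Λ) → (Fin (k + 1) × Λ → B) → B := fun J y =>
    if h : ∃ i : Fin (k + 1), E (sh (i : ℕ) J) = true then s fun j => y (h.choose, j) else a
  have hg : ∀ J, Pres3 α β γ (g J) := fun J => by
    have : ∀ θ : Setoid B, Pres θ s → Pres θ (g J) := fun θ hθ x y h => by
      simp only [g]
      split_ifs
      exacts [hθ _ _ fun _ => h _, θ.refl _]
    exact ⟨this _ hs.1, this _ hs.2.1, this _ hs.2.2⟩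
  have hf := hs.ev N p J₀ g hg
  set f : (Fin (k + 1) × Λ → B) → B := fun y => ev s N p (fun J => g J y) J₀ with hfd
  have row : ∀ (i : Fin (k + 1)) (Y : Finset (Fin (k + 1) × Λ)), (∀ x ∈ Y, x.1 = i) →
      fb f a b Y = ev s N p (bv E a (s fun j => if (i, j) ∈ Y then b else a)) J₀ := by
    intro i Y hY
    rw [hsh i]
    refine congrArg (fun Y => ev s N p Y J₀) (funext fun J => ?_)
    simp only [g, bv]
    split_ifs with h1 h2 h2
    · rw [uniq J _ _ h1.choose_spec h2]
      exact congrArg s (funext fun j => by congr)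
    · rw [← hi a]
      refine congrArg s (funext fun j => ?_)
      rw [hi a, if_neg fun e => h2 (hY _ e ▸ h1.choose_spec)]
    · exact absurd ⟨i, h2⟩ h1
    · rfl
  let arr : (Λ → Bool) → (ℕ → Λ → Bool) → Finset (Fin (k + 1) × Λ) := fun r M =>
    univ.filter fun x => (Fin.cons r fun i : Fin k => M i : Fin (k + 1) → Λ → Bool) x.1 x.2 = true
  have wt : ∀ r M j, ∑ x ∈ arr r M, (if x.2 = j then 1 else 0 : ℤ) =
      bi (r j) + ∑ t ∈ range k, bi (M t j) := fun r M j => by
    rw [← Fin.sum_univ_eq_sum_range (fun t => bi (M t j)), sum_filter, Fintype.sum_prod_type]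
    have : ∀ q : Λ → Bool, ∑ x, (if q x = true then if x = j then 1 else 0 else 0 : ℤ) =
        bi (q j) := fun q => by
      rw [sum_eq_single j (fun x _ hx => by simp [hx]) (by simp)]
      simp [bi]
    simp only [Fin.sum_univ_succ, Fin.cons_zero, Fin.cons_succ, this]
  have e1 : fb f a b (arr (fun _ => false) U) = fb f a b (arr (fun _ => false) V) := by
    refine congrArg (fun Y => ev s N p Y J₀) (funext fun J => ?_)
    simp only [g]
    split_ifs with h
    · generalize h.choose = i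
      refine Fin.cases ?_ (fun i => ?_) i
      · simp [arr]
      · simp only [arr, mem_filter, mem_univ, true_and, Fin.cons_succ]
        exact hT i a b
    · rfl
  have e2 := C.moves hf Prod.snd (fun x x' h => by
    rw [row x.1 {x} (by simp), row x'.1 {x'} (by simp)]
    obtain ⟨i, j⟩ := x
    obtain ⟨i', j'⟩ := x'
    obtain rfl : j = j' := h
    simp only [mem_singleton, Prod.mk.injEq, true_and]
    exact β.refl _) (arr (fun _ => true) V) (arr (fun _ => false) U) fun j => by
      have := hd j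
      rw [sum_sub_distrib] at this
      rw [wt, wt, bi_true, bi_false]
      omega
  have e3 : arr (fun _ => true) V = arr (fun _ => true) (fun _ _ => false) ∪
      arr (fun _ => false) V := by
    ext ⟨i, j⟩
    refine Fin.cases ?_ (fun i => ?_) i <;> simp [arr]
  have e4 : ∀ x ∈ arr (fun _ => true) (fun _ _ => false), x.1 = 0 := by
    rintro ⟨i, j⟩
    refine Fin.cases ?_ (fun i => ?_) i <;> simp [arr]
  rw [e1, e3, ← empty_union (arr (fun _ => false) V), ← union_assoc, union_empty,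
    ← C.tc hf (disjoint_left.2 ?_) (by simp), row 0 _ e4, row 0 ∅ (by simp)] at e2
  · have e5 : (s fun j => if ((0 : Fin (k + 1)), j) ∈ arr (fun _ => true) (fun _ _ => false)
        then b else a) = b := by
      simpa [arr] using hi b
    have e6 : bv E a (s fun j => if ((0 : Fin (k + 1)), j) ∈ (∅ : Finset (Fin (k + 1) × Λ))
        then b else a) = fun _ => a := by
      funext J
      simp [bv, show (s fun _ => a) = a from hi a]
    rw [e5, e6, ev_indep hi N p (fun _ => a) fun _ _ _ _ _ => rfl] at e2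
    exact e2
  · rintro ⟨i, j⟩
    refine Fin.cases ?_ (fun i => ?_) i <;> simp [arr]

lemma Ctx.rel [Fintype Λ] [Nonempty Λ] (C : Ctx α β γ a b) (hs : Pres3 α β γ s) (hi : Idem s)
    {k : ℕ} (hk : Dr (Drift (Tst s)) k fun _ => 1) : β a b := by
  classical
  obtain ⟨d, ⟨F, G, ⟨hF, hG, hFG⟩, hd⟩, hd1⟩ := ZT.pred hi hk (Q := k.factorial) k.factorial_pos
  obtain ⟨R, r1, r2, r3⟩ := (hF.and (hG.and (eventually_ge_atTop (k.factorial + 1)))).exists
  obtain ⟨R', s1, s2⟩ := (hFG.and (eventually_all.2 fun w : Fin (2 * R) → Λ =>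
    eventually_all.2 fun i : Fin (k + 1) =>
      (ZT.shift hi ((loc_win R).map fun w' => decide (w' = w)) (i : ℕ)).2.2)).exists
  let J₀ : ℤ → Λ := fun _ => Classical.arbitrary Λ
  have hf := hs.ev (2 * R') (-R') J₀ (fun J (y : (Fin (2 * R) → Λ) → B) => y (win R J))
    fun J => ⟨fun _ _ h => h _, fun _ _ h => h _, fun _ _ h => h _⟩
  set f : ((Fin (2 * R) → Λ) → B) → B :=
    fun y => ev s (2 * R') (-R') (fun J => y (win R J)) J₀ with hfd
  have f0 : fb f a b ∅ = a := by
    simp only [fb, hfd, notMem_empty, if_false]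
    exact ev_indep hi _ _ (fun _ => a) (fun _ _ _ _ _ => rfl) J₀
  have f1 : fb f a b univ = b := by
    simp only [fb, hfd, mem_univ, if_true]
    exact ev_indep hi _ _ (fun _ => b) (fun _ _ _ _ _ => rfl) J₀
  have null : ∀ w, (∀ J, win R J = w → d J ≠ 1) → β (fb f a b {w}) (fb f a b ∅) := fun w hw => by
    have := C.cyl hs hi hk (fun J => decide (win R J = w)) (fun J e h1 h2 h3 => by
      rw [decide_eq_true_iff] at h3
      rw [decide_eq_false_iff_not]
      exact fun h4 => hw J h3 (hd1 J (per r3 h1 h2 (win_eq.1 (h3.trans h4.symm)))))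
      (2 * R') (-R') J₀ fun i c => s2 w i a c J₀
    rw [f0]
    convert this using 2
    simp only [fb, hfd, mem_singleton]
    congr 1
    funext J
    simp [bv]
  let Y : ((ℤ → Λ) → Bool) → Finset (Fin (2 * R) → Λ) := fun F =>
    univ.filter fun w => ∃ J, win R J = w ∧ F J = true
  have hY : ∀ F : (ℤ → Λ) → Bool, (∀ J J', Ag R J J' → F J = F J') →
      (∀ J, win R J ∈ Y F ↔ F J = true) ∧ fb f a b (Y F) = ev s (2 * R') (-R') (bv F a b) J₀ := by
    intro F hF
    have : ∀ J, win R J ∈ Y F ↔ F J = true := fun J => by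
      simp only [Y, mem_filter, mem_univ, true_and]
      exact ⟨fun ⟨J', h1, h2⟩ => hF J' J (win_eq.1 h1) ▸ h2, fun h => ⟨J, rfl, h⟩⟩
    refine ⟨this, congrArg (fun Y => ev s (2 * R') (-R') Y J₀) (funext fun J => ?_)⟩
    simp only [this, bv]
  have e1 := C.null hf (Y F) (Y F)ᶜ (fun w hw => null w fun J hJ h => by
    subst hJ
    rw [mem_compl, (hY F r1).1] at hw
    rw [hd, Bool.eq_false_iff.2 hw] at h
    revert h
    cases G J <;> simp) disjoint_compl_left
  have e2 := C.null hf ∅ (Y G) (fun w hw => null w fun J hJ h => by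
    subst hJ
    rw [(hY G r2).1] at hw
    rw [hd, hw] at h
    revert h
    cases F J <;> simp) (by simp)
  rw [union_compl, f1, (hY F r1).2, s1] at e1
  rw [empty_union, f0, (hY G r2).2] at e2
  exact β.symm (β.trans e1 e2)

theorem part_two {L : FirstOrder.Language.{u, v}} [L.Structure B] {k : ℕ} (hk : 0 < k)
    (h : W L B k) : MeetSD L B := by
  obtain ⟨s, h1, h2, h3⟩ := h.sys
  have : Nonempty (Pos k) := ⟨⟨({⟨0, hk⟩}, ∅), by simp⟩⟩
  intro α β γ ha hb hc e
  exact le_antisymm (fun a b h => ⟨h.1, Ctx.rel ⟨e, h.1, h.2⟩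
    ⟨h1.pres ha, h1.pres hb, h1.pres hc⟩ h2 h3⟩) (inf_le_inf_left _ le_sup_left)

end Pool.Agent.Lib.MP_71d0e6_al.SD
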